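import Pool.Agent.Y720.WD.Ex

/-!
# Existence of many surfaces with cuspidal reduction (helper720)
-/

set_option autoImplicit false
set_option linter.unusedVariables false
set_option linter.unusedSectionVars false

namespace Pool.Agent.Y720.MZ

/-- the product of the squares of the primes with the number `m` -/
def NS (m : ℕ) (S : Finset Nat.Primes) : ℕ := m * ∏ p ∈ S, (p : ℕ) ^ 2

lemma NS_pos {m : ℕ} (hm : 0 < m) (S : Finset Nat.Primes) : 0 < NS m S :=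
  Nat.mul_pos hm (Finset.prod_pos fun p _ => pow_pos p.2.pos 2)

lemma dvd_NS (m : ℕ) {S : Finset Nat.Primes} {p : Nat.Primes} (hp : p ∈ S) :
    ((p : ℕ) : ℤ) ^ 2 ∣ (NS m S : ℤ) := by
  have : (p : ℕ) ^ 2 ∣ NS m S := Dvd.dvd.mul_left (Finset.dvd_prod_of_mem _ hp) m
  exact_mod_cast Int.natCast_dvd_natCast.2 this

lemma m_dvd_NS (m : ℕ) (S : Finset Nat.Primes) : (m : ℤ) ∣ (NS m S : ℤ) := by
  exact_mod_cast (Dvd.intro _ rfl : m ∣ NS m S)

lemma crt (m : ℕ) (S : Finset Nat.Primes) (hm : ∀ p ∈ S, Nat.Coprime m p) (r : ℤ)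
    (a : Nat.Primes → ℤ) : ∃ x : ℤ, (m : ℤ) ∣ x - r ∧ ∀ p ∈ S, ((p : ℕ) : ℤ) ^ 2 ∣ x - a p := by
  classical
  induction S using Finset.induction_on with
  | empty => exact ⟨r, by simp, by simp⟩
  | insert q S hq ih =>
    obtain ⟨x, h1, h2⟩ := ih fun p hp => hm p (Finset.mem_insert_of_mem hp)
    have hc : IsCoprime (NS m S : ℤ) (((q : ℕ) : ℤ) ^ 2) := by
      rw [← Nat.cast_pow, Nat.isCoprime_iff_coprime]
      apply Nat.Coprime.pow_right
      apply Nat.Coprime.mul_left (hm q (Finset.mem_insert_self _ _))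
      apply Nat.Coprime.prod_left
      intro p hp
      apply Nat.Coprime.pow_left
      rw [Nat.coprime_primes p.2 q.2]
      intro h
      exact hq ((Subtype.ext h : p = q) ▸ hp)
    obtain ⟨u, v, huv⟩ := hc
    refine ⟨x + NS m S * (u * (a q - x)), ?_, ?_⟩
    · have : x + NS m S * (u * (a q - x)) - r = (x - r) + NS m S * (u * (a q - x)) := by ring
      rw [this]
      exact dvd_add h1 (Dvd.dvd.mul_right (m_dvd_NS m S) _)
    · intro p hp
      rcases Finset.mem_insert.1 hp with rfl | hp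
      · refine ⟨- v * (a p - x), ?_⟩
        linear_combination (a p - x) * huv
      · have : x + NS m S * (u * (a q - x)) - a p = (x - a p) + NS m S * (u * (a q - x)) := by ring
        rw [this]
        exact dvd_add (h2 p hp) (Dvd.dvd.mul_right (dvd_NS m hp) _)

/-- the matrix with a rational point `(1, 0, z 0 0)` -/
def ptc {R : Type*} [CommRing R] (z : Fin 5 → Fin 5 → R) : Fin 5 → Fin 5 → R :=
  fun i j => if i = 0 ∧ j = 0 then z 0 0 ^ 2 - (z 1 0 + z 2 0 + z 3 0 + z 4 0) else z i j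

lemma F4_ptc (z : Fin 5 → Fin 5 → ℤ) : F4 (ptc z) (1 : ℚ) 0 = (z 0 0 : ℚ) ^ 2 := by
  simp [F4, ptc, Fin.sum_univ_five]
  ring

lemma F4_one (c : Fin 5 → Fin 5 → ℤ) : F4 c (1 : ℤ) 0 = c 0 0 + c 1 0 + c 2 0 + c 3 0 + c 4 0 := by
  simp [F4, Fin.sum_univ_five]

/-- the congruences -/
lemma ptc_cong {N : ℤ} {z c : Fin 5 → Fin 5 → ℤ} {ω : ℤ} (h0 : N ∣ z 0 0 - ω)
    (h1 : ∀ i j, ¬ (i = 0 ∧ j = 0) → N ∣ z i j - c i j) (h2 : N ∣ ω ^ 2 - F4 c (1 : ℤ) 0)
    (i j : Fin 5) : N ∣ ptc z i j - c i j := by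
  by_cases h : i = 0 ∧ j = 0
  · obtain ⟨rfl, rfl⟩ := h
    rw [F4_one] at h2
    have e : ptc z 0 0 - c 0 0 = (z 0 0 - ω) * (z 0 0 + ω) + (ω ^ 2 -
        (c 0 0 + c 1 0 + c 2 0 + c 3 0 + c 4 0)) - (z 1 0 - c 1 0) - (z 2 0 - c 2 0)
        - (z 3 0 - c 3 0) - (z 4 0 - c 4 0) := by
      simp [ptc]; ring
    rw [e]
    refine dvd_sub (dvd_sub (dvd_sub (dvd_sub (dvd_add (h0.mul_right _) h2) ?_) ?_) ?_) ?_ <;>
    exact h1 _ _ (by decide)
  · have : ptc z i j = z i j := by simp [ptc, h]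
    rw [this]
    exact h1 i j h

/-- the polynomials which vanish on the matrices with a rational point `(1, 0, w)` -/
lemma ptc_dense {P : MvPolynomial (Fin 5 × Fin 5) ℂ} (hP : P ≠ 0) {N : ℤ} (hN : N ≠ 0)
    (d : Fin 5 → Fin 5 → ℤ) : ∃ t : Fin 5 → Fin 5 → ℤ,
      MvPolynomial.eval (fun a => ((ptc (fun i j => d i j + N * t i j) a.1 a.2 : ℤ) : ℂ)) P ≠ 0 := by
  classical
  by_contra hcon
  push Not at hcon
  -- the substitution
  set Q : MvPolynomial (Fin 5 × Fin 5) ℂ := MvPolynomial.bind₁ (fun a : Fin 5 × Fin 5 =>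
    ptc (fun i j => (MvPolynomial.X (i, j) : MvPolynomial (Fin 5 × Fin 5) ℂ)) a.1 a.2) P with hQ
  have hev : ∀ z : Fin 5 × Fin 5 → ℂ, MvPolynomial.eval z Q =
      MvPolynomial.eval (fun a => ptc (fun i j => z (i, j)) a.1 a.2) P := by
    intro z
    rw [hQ, MvPolynomial.eval, MvPolynomial.eval₂Hom_bind₁]
    congr 2
    funext a
    simp only [ptc]
    split_ifs <;> simp
  have hQ0 : Q = 0 := by
    apply MvPolynomial.funext_set
      (fun a : Fin 5 × Fin 5 => Set.range fun t : ℤ => ((d a.1 a.2 + N * t : ℤ) : ℂ))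
    · intro a
      apply Set.infinite_range_of_injective
      intro t t' h
      have h' : d a.1 a.2 + N * t = d a.1 a.2 + N * t' := Int.cast_injective h
      exact mul_left_cancel₀ hN (add_left_cancel h')
    · intro x hx
      have hx' : ∀ a : Fin 5 × Fin 5, ∃ t : ℤ, ((d a.1 a.2 + N * t : ℤ) : ℂ) = x a :=
        fun a => hx a (Set.mem_univ _)
      choose t ht using hx'
      rw [map_zero, hev, ← hcon fun i j => t (i, j)]
      congr 2
      funext a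
      simp only [ptc]
      split_ifs with h
      · simp only [← ht]
        push_cast
        ring
      · simp only [← ht]
  apply hP
  apply MvPolynomial.funext
  intro c
  obtain ⟨u, hu⟩ := IsAlgClosed.exists_pow_nat_eq (c (0, 0) + (c (1, 0) + c (2, 0) + c (3, 0)
    + c (4, 0))) (n := 2) (by norm_num)
  have h1 := hev (fun a => if a.1 = 0 ∧ a.2 = 0 then u else c a)
  rw [hQ0, map_zero] at h1
  rw [map_zero, h1]
  congr 2
  funext a
  obtain ⟨i, j⟩ := a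
  by_cases h : i = 0 ∧ j = 0
  · obtain ⟨rfl, rfl⟩ := h
    simp [ptc, hu]
  · simp [ptc, h]

/-- **there are many surfaces** -/
theorem exi (S : Finset Nat.Primes) (h11 : ∀ p ∈ S, 11 ≤ (p : ℕ)) {m : ℕ} (hm0 : 0 < m)
    (hm : ∀ p ∈ S, Nat.Coprime m p) {c' : Fin 5 → Fin 5 → ℤ} {r : ℤ}
    (hr : (m : ℤ) ∣ r ^ 2 - F4 c' (1 : ℤ) 0) {P : MvPolynomial (Fin 5 × Fin 5) ℂ} (hP : P ≠ 0) :
    ∃ (c : Fin 5 → Fin 5 → ℤ) (w : ℤ), (∀ i j, (m : ℤ) ∣ c i j - c' i j) ∧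
      (∀ p ∈ S, ∃ ν : ℤ, ¬ IsSquare (ν : ZMod p) ∧
        ∀ i j, ((p : ℕ) : ℤ) ^ 2 ∣ c i j - ex4 p ν i j) ∧
      (w : ℚ) ^ 2 = F4 c (1 : ℚ) 0 ∧ (∀ p ∈ S, ¬ ((p : ℕ) : ℤ) ∣ w) ∧
      MvPolynomial.eval (fun a => ((c a.1 a.2 : ℤ) : ℂ)) P ≠ 0 := by
  classical
  -- nonsquares
  have hns : ∀ p : Nat.Primes, ∃ ν : ℤ, p ∈ S → ¬ IsSquare (ν : ZMod p) := by
    intro p
    by_cases hp : p ∈ S
    · haveI : Fact (p : ℕ).Prime := ⟨p.2⟩
      obtain ⟨a, ha⟩ := FiniteField.exists_nonsquare (F := ZMod p) (by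
        rw [ZMod.ringChar_zmod_n]
        have := h11 p hp
        omega)
      exact ⟨a.val, fun _ => by simpa using ha⟩
    · exact ⟨0, fun h => absurd h hp⟩
  choose ν hν using hns
  set t : Nat.Primes → ℤ := fun p => (((p : ℕ) : ℤ) + 1) / 2
  have ht : ∀ p ∈ S, 2 * t p = (p : ℕ) + 1 := by
    intro p hp
    have h2 := h11 p hp
    have hodd : (p : ℕ) % 2 = 1 := by
      rcases p.2.eq_two_or_odd with h | h
      · omega
      · exact h
    simp only [t]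
    omega
  set ω : Nat.Primes → ℤ := fun p => ν p * (1 + (p : ℕ) * (1 - ν p) ^ 2 * t p)
  obtain ⟨W, hW1, hW2⟩ := crt m S hm r ω
  choose C hC1 hC2 using fun a : Fin 5 × Fin 5 =>
    crt m S hm (c' a.1 a.2) fun p => ex4 p (ν p) a.1 a.2
  set d : Fin 5 → Fin 5 → ℤ := fun i j => if i = 0 ∧ j = 0 then W else C (i, j)
  obtain ⟨z, hz⟩ := ptc_dense hP (N := (NS m S : ℤ))
    (by exact_mod_cast (NS_pos hm0 S).ne') d
  have hd0 : d 0 0 = W := by simp [d]
  have hd : ∀ i j, ¬ (i = 0 ∧ j = 0) → d i j = C (i, j) := fun i j h => by simp [d, h]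
  refine ⟨ptc fun i j => d i j + NS m S * z i j, d 0 0 + NS m S * z 0 0, ?_, ?_, ?_, ?_, hz⟩
  · apply ptc_cong (ω := r)
    · rw [hd0, add_sub_right_comm]
      exact dvd_add hW1 ((m_dvd_NS m S).mul_right _)
    · intro i j h
      rw [hd i j h, add_sub_right_comm]
      exact dvd_add (hC1 (i, j)) ((m_dvd_NS m S).mul_right _)
    · exact hr
  · intro p hp
    refine ⟨ν p, hν p hp, ?_⟩
    apply ptc_cong (ω := ω p)
    · rw [hd0, add_sub_right_comm]
      exact dvd_add (hW2 p hp) ((dvd_NS m hp).mul_right _)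
    · intro i j h
      rw [hd i j h, add_sub_right_comm]
      exact dvd_add (hC2 (i, j) p hp) ((dvd_NS m hp).mul_right _)
    · rw [F4_ex4]
      refine ⟨ν p ^ 2 * (1 - ν p) ^ 2 + ν p ^ 2 * (1 - ν p) ^ 4 * t p ^ 2, ?_⟩
      simp only [ω]
      linear_combination ν p ^ 2 * (1 - ν p) ^ 2 * (p : ℕ) * ht p hp
  · rw [F4_ptc]
  · intro p hp h
    haveI : Fact (p : ℕ).Prime := ⟨p.2⟩
    rw [hd0] at h
    have h1 : ((p : ℕ) : ℤ) ∣ ω p := by
      have e : ω p = (W + NS m S * z 0 0) - (W - ω p) - NS m S * z 0 0 := by ring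
      rw [e]
      refine dvd_sub (dvd_sub h ?_) ?_
      · exact (Dvd.intro_left _ (by ring : ((p : ℕ) : ℤ) * (p : ℕ) = ((p : ℕ) : ℤ) ^ 2)).trans
          (hW2 p hp)
      · exact ((Dvd.intro_left _ (by ring : ((p : ℕ) : ℤ) * (p : ℕ) = ((p : ℕ) : ℤ) ^ 2)).trans
          (dvd_NS m hp)).mul_right _
    have h2 : ((p : ℕ) : ℤ) ∣ ν p := by
      have e : ν p = ω p - (p : ℕ) * (ν p * (1 - ν p) ^ 2 * t p) := by simp only [ω]; ring
      rw [e]
      exact dvd_sub h1 (dvd_mul_right _ _)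
    apply hν p hp
    rw [(ZMod.intCast_zmod_eq_zero_iff_dvd _ _).2 h2]
    exact IsSquare.zero

end Pool.Agent.Y720.MZ
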