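import Pool.Agent.Y720.WL.LemEp

/-!
# The group law on a curve with a cuspidal reduction of type II (helper720)
-/

set_option autoImplicit false
set_option linter.unusedVariables false
set_option linter.unusedSectionVars false

open WeierstrassCurve

namespace Pool.Agent.Y720.MZ

section alg

variable {K : Type*} [Field K]

/-- the coefficients in the shifted coordinate -/
def sA (a e : K) : K := a + 3 * e
/-- the coefficients in the shifted coordinate -/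
def sB (a b e : K) : K := b + 2 * a * e + 3 * e ^ 2
/-- the coefficients in the shifted coordinate -/
def sC (a b c e : K) : K := c + b * e + a * e ^ 2 + e ^ 3

/-- the approximate logarithm -/
def LL (A B C t : K) : K := t + A / 3 * t ^ 3 + 2 * B / 5 * t ^ 5 + 3 * C / 7 * t ^ 7

lemma LL_neg (A B C t : K) : LL A B C (-t) = -LL A B C t := by unfold LL; ring

/-- the second elementary symmetric function of the parameters -/
lemma e2_par {a b c x₁ x₂ x₃ ℓ ν : K} (E1 : x₁ + x₂ + x₃ = ℓ ^ 2 - a)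
    (E2 : x₁ * x₂ + x₁ * x₃ + x₂ * x₃ = b - 2 * ℓ * ν) (E3 : x₁ * x₂ * x₃ = ν ^ 2 - c)
    (hν : ν ≠ 0) (h1 : ℓ * x₁ + ν ≠ 0) (h2 : ℓ * x₂ + ν ≠ 0) (h3 : ℓ * x₃ + ν ≠ 0) :
    (1 + a * (-ℓ / ν) + b * (-ℓ / ν) ^ 2 + c * (-ℓ / ν) ^ 3) *
      (x₁ / (ℓ * x₁ + ν) * (x₂ / (ℓ * x₂ + ν)) + x₁ / (ℓ * x₁ + ν) * (x₃ / (ℓ * x₃ + ν)) +
        x₂ / (ℓ * x₂ + ν) * (x₃ / (ℓ * x₃ + ν))) =
      b * (1 / ν) ^ 2 + 3 * c * (-ℓ / ν) * (1 / ν) ^ 2 - (-ℓ / ν) := by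
  have e1 : (ℓ * x₁ + ν) * (ℓ * x₂ + ν) * (ℓ * x₃ + ν) =
      ν ^ 3 - a * ℓ * ν ^ 2 + b * ℓ ^ 2 * ν - c * ℓ ^ 3 := by
    linear_combination ℓ ^ 3 * E3 + ℓ ^ 2 * ν * E2 + ℓ * ν ^ 2 * E1
  have e2 : (1 + a * (-ℓ / ν) + b * (-ℓ / ν) ^ 2 + c * (-ℓ / ν) ^ 3) =
      (ν ^ 3 - a * ℓ * ν ^ 2 + b * ℓ ^ 2 * ν - c * ℓ ^ 3) / ν ^ 3 := by
    field_simp
    ring
  have e3 : x₁ * x₂ * (ℓ * x₃ + ν) + x₁ * x₃ * (ℓ * x₂ + ν) + x₂ * x₃ * (ℓ * x₁ + ν) =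
      ν * b + ℓ * ν ^ 2 - 3 * c * ℓ := by
    linear_combination 3 * ℓ * E3 + ν * E2
  rw [e2, ← e1]
  have hne := mul_ne_zero (mul_ne_zero h1 h2) h3
  have e4 : (x₁ / (ℓ * x₁ + ν) * (x₂ / (ℓ * x₂ + ν)) + x₁ / (ℓ * x₁ + ν) * (x₃ / (ℓ * x₃ + ν)) +
        x₂ / (ℓ * x₂ + ν) * (x₃ / (ℓ * x₃ + ν))) =
      (ν * b + ℓ * ν ^ 2 - 3 * c * ℓ) / ((ℓ * x₁ + ν) * (ℓ * x₂ + ν) * (ℓ * x₃ + ν)) := by
    rw [← e3]
    generalize ℓ * x₁ + ν = y₁ at *
    generalize ℓ * x₂ + ν = y₂ at *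
    generalize ℓ * x₃ + ν = y₃ at *
    field_simp
  rw [e4]
  generalize (ℓ * x₁ + ν) * (ℓ * x₂ + ν) * (ℓ * x₃ + ν) = Y at hne ⊢
  field_simp
  ring

end alg

section val

variable {K : Type*} [Field K] {v : AbsoluteValue K ℝ}

lemma vm {x y : K} {r s : ℝ} (hx : v x ≤ r) (hy : v y ≤ s) : v (x * y) ≤ r * s := by
  rw [map_mul]
  exact mul_le_mul hx hy (v.nonneg _) ((v.nonneg _).trans hx)

lemma vm1 {x y : K} {r : ℝ} (hx : v x ≤ r) (hy : v y ≤ 1) : v (x * y) ≤ r := by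
  have := vm hx hy
  rwa [mul_one] at this

lemma vm1' {x y : K} {r : ℝ} (hx : v x ≤ 1) (hy : v y ≤ r) : v (x * y) ≤ r := by
  have := vm hx hy
  rwa [one_mul] at this

lemma vp1 {x : K} (hx : v x ≤ 1) (n : ℕ) : v (x ^ n) ≤ 1 := by
  rw [map_pow]; exact pow_le_one₀ (v.nonneg _) hx

lemma na_int (hv : IsNonarchimedean v) (n : ℕ) : v (n : K) ≤ 1 := by
  induction n with
  | zero => rw [Nat.cast_zero, map_zero]; exact zero_le_one
  | succ n ih =>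
    rw [Nat.cast_succ]
    exact na_add hv ih (by rw [v.map_one])

end val

section cusp

variable {K : Type*} [Field K] {v : AbsoluteValue K ℝ} {a b c e : K} {ε : ℝ}

/-- a curve with reduction of type II -/
structure Cu (v : AbsoluteValue K ℝ) (ε : ℝ) (a b c e : K) : Prop where
  na : IsNonarchimedean v
  ε0 : 0 < ε
  ε1 : ε < 1
  disc : ∀ x, v x < 1 → v x ≤ ε
  nsq : ∀ x, v x ^ 2 ≠ ε
  v2 : v 2 = 1
  v3 : v 3 = 1
  v5 : v 5 = 1
  v7 : v 7 = 1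
  hA : v (sA a e) ≤ ε
  hB : v (sB a b e) ≤ ε
  hC : v (sC a b c e) = ε

lemma Cu.shape (h : Cu v ε a b c e) {x y : K} (hxy : y ^ 2 = x ^ 3 + a * x ^ 2 + b * x + c) :
    1 ≤ v (x - e) ∧ v y ^ 2 = v (x - e) ^ 3 := by
  have hv := h.na
  have e1 : y ^ 2 = (x - e) ^ 3 + (sA a e * (x - e) ^ 2 + (sB a b e * (x - e) + sC a b c e)) := by
    rw [hxy]; unfold sA sB sC; ring
  have hε := h.ε0
  have hε1 := h.ε1
  by_cases hX : v (x - e) < 1
  · exfalso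
    have h1 := h.disc _ hX
    have h0 := v.nonneg (x - e)
    have b1 : v ((x - e) ^ 3 + sA a e * (x - e) ^ 2 + sB a b e * (x - e)) ≤ ε ^ 2 := by
      refine na_add hv (na_add hv ?_ ?_) ?_
      · rw [map_pow]
        calc v (x - e) ^ 3 ≤ ε ^ 3 := by gcongr
          _ ≤ ε ^ 2 := pow_le_pow_of_le_one hε.le hε1.le (by norm_num)
      · have := vm h.hA (show v ((x - e) ^ 2) ≤ ε by
          rw [map_pow]
          calc v (x - e) ^ 2 ≤ ε ^ 2 := by gcongr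
            _ ≤ ε ^ 1 := pow_le_pow_of_le_one hε.le hε1.le (by norm_num)
            _ = ε := pow_one ε)
        rwa [← sq] at this
      · have := vm h.hB h1
        rwa [← sq] at this
    have b2 : v y ^ 2 = ε := by
      rw [← map_pow, e1]
      have e2 : (x - e) ^ 3 + (sA a e * (x - e) ^ 2 + (sB a b e * (x - e) + sC a b c e)) =
        sC a b c e + ((x - e) ^ 3 + sA a e * (x - e) ^ 2 + sB a b e * (x - e)) := by ring
      rw [e2, na_eq hv, h.hC]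
      rw [h.hC]
      refine b1.trans_lt ?_
      nlinarith
    exact h.nsq _ b2
  · push Not at hX
    refine ⟨hX, ?_⟩
    rw [← map_pow, e1, na_eq hv, map_pow]
    set X := x - e
    have h3 : v X ^ 2 ≤ v X ^ 3 := pow_le_pow_right₀ hX (by norm_num)
    have h4 : v X ^ 1 ≤ v X ^ 3 := pow_le_pow_right₀ hX (by norm_num)
    have h5 : v X ^ 0 ≤ v X ^ 3 := pow_le_pow_right₀ hX (by norm_num)
    rw [pow_one] at h4
    rw [pow_zero] at h5
    have b1 : v (sA a e * X ^ 2 + (sB a b e * X + sC a b c e)) ≤ ε * v X ^ 3 := by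
      refine na_add hv ?_ (na_add hv ?_ ?_)
      · exact vm h.hA (by rw [map_pow]; exact h3)
      · exact vm h.hB h4
      · rw [h.hC]; nlinarith
    refine b1.trans_lt ?_
    rw [map_pow]
    nlinarith

/-- the three parameters of a line -/
lemma Cu.line (hv : IsNonarchimedean v) (hε : 0 < ε) (hε1 : ε < 1) (h2 : v 2 = 1) (h3 : v 3 = 1)
    (h5 : v 5 = 1) (h7 : v 7 = 1) {A B C : K} (hA : v A ≤ ε) (hB : v B ≤ ε) (hC : v C ≤ ε)
    {x₁ x₂ x₃ ℓ ν : K} (E1 : x₁ + x₂ + x₃ = ℓ ^ 2 - A)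
    (E2 : x₁ * x₂ + x₁ * x₃ + x₂ * x₃ = B - 2 * ℓ * ν) (E3 : x₁ * x₂ * x₃ = ν ^ 2 - C)
    (k1 : 1 ≤ v x₁) (k2 : 1 ≤ v x₂) (k3 : 1 ≤ v x₃)
    (l1 : v (ℓ * x₁ + ν) ^ 2 = v x₁ ^ 3) (l2 : v (ℓ * x₂ + ν) ^ 2 = v x₂ ^ 3)
    (l3 : v (ℓ * x₃ + ν) ^ 2 = v x₃ ^ 3) :
    v (x₁ / (ℓ * x₁ + ν) + x₂ / (ℓ * x₂ + ν) + x₃ / (ℓ * x₃ + ν)) ≤
      ε * (v (x₁ / (ℓ * x₁ + ν)) * v (x₂ / (ℓ * x₂ + ν))) ∧
    v (LL A B C (x₁ / (ℓ * x₁ + ν)) + LL A B C (x₂ / (ℓ * x₂ + ν)) +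
      LL A B C (x₃ / (ℓ * x₃ + ν))) ≤ ε ^ 2 := by
  have tt : ∀ x : K, 1 ≤ v x → v (ℓ * x + ν) ^ 2 = v x ^ 3 → ℓ * x + ν ≠ 0 ∧
      v (x / (ℓ * x + ν)) ≤ 1 ∧ v (x / (ℓ * x + ν)) ^ 2 * v x = 1 := by
    intro x hx hl
    have h0 : ℓ * x + ν ≠ 0 := by
      intro h0
      rw [h0, map_zero] at hl
      have : (1 : ℝ) ≤ v x ^ 3 := one_le_pow₀ hx
      linarith [hl]
    have hx0 : 0 < v x := zero_lt_one.trans_le hx
    have e1 : v (x / (ℓ * x + ν)) ^ 2 * v x = 1 := by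
      rw [map_div₀, div_pow, hl]
      field_simp
    refine ⟨h0, ?_, e1⟩
    by_contra hcon
    push Not at hcon
    have : 1 < v (x / (ℓ * x + ν)) ^ 2 := one_lt_pow₀ hcon (by norm_num)
    nlinarith
  obtain ⟨m1, n1, q1⟩ := tt x₁ k1 l1
  obtain ⟨m2, n2, q2⟩ := tt x₂ k2 l2
  obtain ⟨m3, n3, q3⟩ := tt x₃ k3 l3
  have hxxx : 1 ≤ v x₁ * v x₂ * v x₃ := by
    have := mul_le_mul k1 k2 zero_le_one (by linarith)
    rw [one_mul] at this
    have := mul_le_mul this k3 zero_le_one (by linarith)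
    linarith
  have hM : v ν ^ 2 = v x₁ * v x₂ * v x₃ := by
    have e1 : ν ^ 2 = x₁ * x₂ * x₃ + C := by rw [E3]; ring
    rw [← map_pow, e1, na_eq hv, map_mul, map_mul]
    rw [map_mul, map_mul]
    linarith
  have hν1 : 1 ≤ v ν := by
    by_contra hcon
    push Not at hcon
    have := pow_lt_one₀ (v.nonneg ν) hcon two_ne_zero
    linarith
  have hν : ν ≠ 0 := by
    rintro rfl
    rw [map_zero] at hν1
    linarith
  have hℓ : v ℓ ≤ v ν := by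
    have e1 : ℓ ^ 2 = x₁ + x₂ + x₃ + A := by rw [E1]; ring
    have e2 : v (ℓ ^ 2) ≤ v x₁ * v x₂ * v x₃ := by
      rw [e1]
      have g1 : v x₁ ≤ v x₁ * v x₂ * v x₃ := by
        have : (1 : ℝ) ≤ v x₂ * v x₃ := by nlinarith
        nlinarith
      have g2 : v x₂ ≤ v x₁ * v x₂ * v x₃ := by
        have : (1 : ℝ) ≤ v x₁ * v x₃ := by nlinarith
        nlinarith
      have g3 : v x₃ ≤ v x₁ * v x₂ * v x₃ := by
        have : (1 : ℝ) ≤ v x₁ * v x₂ := by nlinarith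
        nlinarith
      exact na_add hv (na_add hv (na_add hv g1 g2) g3) (by linarith)
    rw [map_pow, ← hM] at e2
    exact le_of_sq_le_sq e2 (by linarith)
  set l := -ℓ / ν with hl
  set m := 1 / ν with hm
  have hνp : 0 < v ν := by linarith
  have hl1 : v l ≤ 1 := by
    rw [hl, map_div₀, v.map_neg, div_le_one hνp]; exact hℓ
  have hm1 : v m ≤ 1 := by
    rw [hm, map_div₀, v.map_one, div_le_one hνp]; exact hν1
  have hD1 : v (A * l + B * l ^ 2 + C * l ^ 3) ≤ ε :=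
    na_add hv (na_add hv (vm1 hA hl1) (vm1 hB (vp1 hl1 2))) (vm1 hC (vp1 hl1 3))
  set D := 1 + A * l + B * l ^ 2 + C * l ^ 3 with hD
  have hD1' : v (D - 1) ≤ ε := by
    rw [hD, show 1 + A * l + B * l ^ 2 + C * l ^ 3 - 1 = A * l + B * l ^ 2 + C * l ^ 3 by ring]
    exact hD1
  have hDv : v D = 1 := by
    rw [show D = 1 + (D - 1) by ring, na_eq hv, v.map_one]
    rw [v.map_one]; linarith
  have hD0 : D ≠ 0 := by
    intro h0
    rw [h0, map_zero] at hDv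
    norm_num at hDv
  obtain ⟨-, hs⟩ := line_sum E1 E2 E3 hν m1 m2 hD0
  have hp := prod_par E1 E2 E3 hν m1 m2 m3
  have hp2 := e2_par E1 E2 E3 hν m1 m2 m3
  set t₁ := x₁ / (ℓ * x₁ + ν) with ht₁
  set t₂ := x₂ / (ℓ * x₂ + ν) with ht₂
  set t₃ := x₃ / (ℓ * x₃ + ν) with ht₃
  have hs' : D * (t₁ + t₂ + t₃) = -(m * (A + 2 * B * l + 3 * C * l ^ 2)) := by
    have h0 : t₃ = -t₁ - t₂ - (A * m + 2 * B * l * m + 3 * C * l ^ 2 * m) / D := hs
    rw [h0]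
    field_simp
    ring
  have hp' : D * (t₁ * t₂ * t₃) = m * (1 - C * m ^ 2) := hp
  have hp2' : D * (t₁ * t₂ + t₁ * t₃ + t₂ * t₃) = B * m ^ 2 + 3 * C * l * m ^ 2 - l := hp2
  have hF : v (A + 2 * B * l + 3 * C * l ^ 2) ≤ ε :=
    na_add hv (na_add hv hA (vm1 (vm1' h2.le hB) hl1)) (vm1 (vm1' h3.le hC) (vp1 hl1 2))
  -- the product of the parameters
  have hmt : v m = v t₁ * v t₂ * v t₃ := by
    have hcm : v (C * m ^ 2) < 1 := (vm1 hC (vp1 hm1 2)).trans_lt hε1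
    have e1 : v (1 - C * m ^ 2) = 1 := by
      rw [sub_eq_add_neg, na_eq hv, v.map_one]
      rw [v.map_neg, v.map_one]; exact hcm
    have e2 := congrArg v hp'
    rw [map_mul, hDv, one_mul, map_mul v m, e1, mul_one, map_mul, map_mul] at e2
    exact e2.symm
  have hE1 : v (t₁ + t₂ + t₃) ≤ ε * v m := by
    have e2 := congrArg v hs'
    rw [map_mul, hDv, one_mul, v.map_neg] at e2
    rw [e2, mul_comm m]
    exact vm hF le_rfl
  constructor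
  · refine hE1.trans ?_
    rw [hmt]
    have q := v.nonneg t₁
    have q' := v.nonneg t₂
    have : v t₁ * v t₂ * v t₃ ≤ v t₁ * v t₂ * 1 := by gcongr
    nlinarith
  · set u := t₁ + t₂ + t₃ with hu
    set w := t₁ * t₂ + t₁ * t₃ + t₂ * t₃ with hw
    set z := t₁ * t₂ * t₃ with hz
    have hu1 : v u ≤ ε := hE1.trans (by nlinarith)
    have hu2 : v u ≤ 1 := hu1.trans hε1.le
    have hw1 : v w ≤ 1 := na_add hv (na_add hv (vm1 n1 n2) (vm1 n1 n3)) (vm1 n2 n3)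
    have hz1 : v z ≤ 1 := vm1 (vm1 n1 n2) n3
    have hz2 : v (z - m) ≤ ε := by
      have e1 : z - m = -((D - 1) * z + C * m ^ 2 * m) := by linear_combination hp'
      rw [e1, v.map_neg]
      exact na_add hv (vm1 hD1' hz1) (vm1 (vm1 hC (vp1 hm1 2)) hm1)
    have hw2 : v (w + l) ≤ ε := by
      have e1 : w + l = -((D - 1) * w) + (B * m ^ 2 + 3 * C * (l * m ^ 2)) := by
        linear_combination hp2'
      rw [e1]
      refine na_add hv ?_ (na_add hv (vm1 hB (vp1 hm1 2)) (vm1 (vm1' h3.le hC)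
        (vm1 hl1 (vp1 hm1 2))))
      rw [v.map_neg]
      exact vm1 hD1' hw1
    have hu3 : v (u + m * (A + 2 * B * l + 3 * C * l ^ 2)) ≤ ε ^ 2 := by
      have e1 : u + m * (A + 2 * B * l + 3 * C * l ^ 2) = -((D - 1) * u) := by
        linear_combination hs'
      rw [e1, v.map_neg, sq ε]
      exact vm hD1' hu1
    have v3i : v (1 / 3 : K) = 1 := by rw [map_div₀, v.map_one, h3, div_one]
    have v5i : v (1 / 5 : K) = 1 := by rw [map_div₀, v.map_one, h5, div_one]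
    have v7i : v (1 / 7 : K) = 1 := by rw [map_div₀, v.map_one, h7, div_one]
    have c3 : (3 : K) ≠ 0 := by
      intro h0
      rw [h0, map_zero] at h3
      norm_num at h3
    have c5 : (5 : K) ≠ 0 := by
      intro h0
      rw [h0, map_zero] at h5
      norm_num at h5
    have c7 : (7 : K) ≠ 0 := by
      intro h0
      rw [h0, map_zero] at h7
      norm_num at h7
    have nat1 : ∀ n : ℕ, v (n : K) ≤ 1 := na_int hv
    -- the expansion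
    set R3 := u ^ 2 - ((3 : ℕ) : K) * w with hR3
    set R5 := u ^ 4 - ((5 : ℕ) : K) * (u ^ 2 * w) + ((5 : ℕ) : K) * (u * z) +
      ((5 : ℕ) : K) * w ^ 2 with hR5
    set R7 := u ^ 6 - ((7 : ℕ) : K) * (u ^ 4 * w) + ((14 : ℕ) : K) * (u ^ 2 * w ^ 2) -
      ((7 : ℕ) : K) * w ^ 3 + ((7 : ℕ) : K) * (u ^ 3 * z) - ((21 : ℕ) : K) * (u * w * z) +
      ((7 : ℕ) : K) * z ^ 2 with hR7
    have bR3 : v R3 ≤ 1 := na_sub hv (vp1 hu2 2) (vm1 (nat1 3) hw1)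
    have bR5 : v R5 ≤ 1 := na_add hv (na_add hv (na_sub hv (vp1 hu2 4)
      (vm1 (nat1 5) (vm1 (vp1 hu2 2) hw1))) (vm1 (nat1 5) (vm1 hu2 hz1)))
      (vm1 (nat1 5) (vp1 hw1 2))
    have bR7 : v R7 ≤ 1 := na_add hv (na_sub hv (na_add hv (na_sub hv (na_add hv (na_sub hv
      (vp1 hu2 6) (vm1 (nat1 7) (vm1 (vp1 hu2 4) hw1)))
      (vm1 (nat1 14) (vm1 (vp1 hu2 2) (vp1 hw1 2)))) (vm1 (nat1 7) (vp1 hw1 3)))
      (vm1 (nat1 7) (vm1 (vp1 hu2 3) hz1))) (vm1 (nat1 21) (vm1 (vm1 hu2 hw1) hz1)))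
      (vm1 (nat1 7) (vp1 hz1 2))
    have eS : LL A B C t₁ + LL A B C t₂ + LL A B C t₃ =
        (u + m * (A + 2 * B * l + 3 * C * l ^ 2)) +
        (A * (z - m) - 2 * B * ((w + l) * z - l * (z - m)) +
          3 * C * ((w + l) * ((w - l) * z) + l ^ 2 * (z - m))) +
        u * (A * (1 / 3) * R3 + 2 * B * (1 / 5) * R5 + 3 * C * (1 / 7) * R7) := by
      have p3 : t₁ ^ 3 + t₂ ^ 3 + t₃ ^ 3 = 3 * z + u * R3 := by
        rw [hR3, hz, hw, hu]; push_cast; ring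
      have p5 : t₁ ^ 5 + t₂ ^ 5 + t₃ ^ 5 = -5 * (w * z) + u * R5 := by
        rw [hR5, hz, hw, hu]; push_cast; ring
      have p7 : t₁ ^ 7 + t₂ ^ 7 + t₃ ^ 7 = 7 * (w ^ 2 * z) + u * R7 := by
        rw [hR7, hz, hw, hu]; push_cast; ring
      have e1 : LL A B C t₁ + LL A B C t₂ + LL A B C t₃ = u + A * (1 / 3) *
          (t₁ ^ 3 + t₂ ^ 3 + t₃ ^ 3) + 2 * B * (1 / 5) * (t₁ ^ 5 + t₂ ^ 5 + t₃ ^ 5) +
          3 * C * (1 / 7) * (t₁ ^ 7 + t₂ ^ 7 + t₃ ^ 7) := by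
        rw [hu]; unfold LL; ring
      rw [e1, p3, p5, p7]
      field_simp
      ring
    rw [eS]
    have b1 : v (A * (z - m) - 2 * B * ((w + l) * z - l * (z - m)) +
          3 * C * ((w + l) * ((w - l) * z) + l ^ 2 * (z - m))) ≤ ε ^ 2 := by
      rw [sq ε]
      refine na_add hv (na_sub hv (vm hA hz2) (vm (vm1' h2.le hB) (na_sub hv (vm1 hw2 hz1)
        (vm1' hl1 hz2)))) (vm (vm1' h3.le hC) (na_add hv (vm1 hw2
        (vm1 (na_sub hv hw1 hl1) hz1)) (vm1' (vp1 hl1 2) hz2)))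
    have b2 : v (u * (A * (1 / 3) * R3 + 2 * B * (1 / 5) * R5 + 3 * C * (1 / 7) * R7)) ≤ ε ^ 2 := by
      rw [sq ε]
      refine vm hu1 (na_add hv (na_add hv (vm1 (vm1 hA v3i.le) bR3)
        (vm1 (vm1 (vm1' h2.le hB) v5i.le) bR5)) (vm1 (vm1 (vm1' h3.le hC) v7i.le) bR7))
    exact na_add hv (na_add hv hu3 b1) b2

end cusp

end Pool.Agent.Y720.MZ
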