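import Pool.Agent.Y720.WD.Cusp

/-!
# The multiples of a point on a curve with a cuspidal reduction of type II (helper720)
-/

set_option autoImplicit false
set_option linter.unusedVariables false
set_option linter.unusedSectionVars false

open WeierstrassCurve

namespace Pool.Agent.Y720.MZ

section points

variable {K : Type*} [Field K] [CharZero K] [DecidableEq K] {v : AbsoluteValue K ℝ} {a b c e : K}
  {ε : ℝ}

/-- the parameter of a point -/
def Te (e : K) {a b c : K} (P : Pt a b c) : K :=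
  match P with
  | .zero => 0
  | .some x y _ => (x - e) / y

@[simp] lemma Te_zero : Te e (0 : Pt a b c) = 0 := rfl

@[simp] lemma Te_some {x y : K} (h : (cv a b c).toAffine.Nonsingular x y) :
    Te e (.some x y h : Pt a b c) = (x - e) / y := rfl

lemma Te_neg (P : Pt a b c) : Te e (-P) = -Te e P := by
  rcases P with _ | ⟨x, y, h⟩
  · change Te e (-0) = -Te e (0 : Pt a b c)
    rw [neg_zero, Te_zero, neg_zero]
  · obtain ⟨h', e'⟩ := neg_mk h
    rw [e', Te_some, Te_some, div_neg]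

/-- the approximate logarithm of a point -/
def Lo (a b c e : K) (P : Pt a b c) : K := LL (sA a e) (sB a b e) (sC a b c e) (Te e P)

lemma Lo_zero : Lo a b c e 0 = 0 := by unfold Lo LL; rw [Te_zero]; ring

lemma Lo_neg (P : Pt a b c) : Lo a b c e (-P) = -Lo a b c e P := by
  unfold Lo; rw [Te_neg, LL_neg]

lemma Cu.Te_le (h : Cu v ε a b c e) (P : Pt a b c) : v (Te e P) ≤ 1 := by
  rcases P with _ | ⟨x, y, hP⟩
  · change v 0 ≤ 1
    rw [map_zero]; exact zero_le_one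
  · obtain ⟨h1, h2⟩ := h.shape (cv_ns.1 hP).1
    rw [Te_some]
    have h0 : 0 < v (x - e) := by linarith
    by_contra hcon
    push Not at hcon
    have h3 : v ((x - e) / y) ^ 2 * v (x - e) = 1 := by
      rw [map_div₀, div_pow, h2]; field_simp
    have : 1 < v ((x - e) / y) ^ 2 := one_lt_pow₀ hcon (by norm_num)
    nlinarith

/-- **Additivity of the parameter and of the approximate logarithm.** -/
theorem Cu.add (h : Cu v ε a b c e) (P Q : Pt a b c) :
    v (Te e (P + Q) - Te e P - Te e Q) ≤ ε * (v (Te e P) * v (Te e Q)) ∧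
      v (Lo a b c e (P + Q) - Lo a b c e P - Lo a b c e Q) ≤ ε ^ 2 := by
  have hε := h.ε0
  have triv : ∀ x y : K, x = 0 → y = 0 → v x ≤ ε * (v (Te e P) * v (Te e Q)) ∧ v y ≤ ε ^ 2 := by
    rintro x y rfl rfl
    rw [map_zero]
    exact ⟨mul_nonneg hε.le (mul_nonneg (v.nonneg _) (v.nonneg _)), by positivity⟩
  rcases hP : P with _ | ⟨x₁, y₁, h₁⟩
  · have hP0 : P = 0 := hP
    rw [← hP]
    apply triv
    · rw [hP0, zero_add, Te_zero]; ring
    · rw [hP0, zero_add, Lo_zero]; ring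
  rcases hQ : Q with _ | ⟨x₂, y₂, h₂⟩
  · have hQ0 : Q = 0 := hQ
    rw [← hP, ← hQ]
    apply triv
    · rw [hQ0, add_zero, Te_zero]; ring
    · rw [hQ0, add_zero, Lo_zero]; ring
  rw [← hP, ← hQ]
  have concl : ∀ (ℓ ν x₃ : K) (y₃ : K) (h₃ : (cv a b c).toAffine.Nonsingular x₃ y₃),
      (.some x₁ y₁ h₁ : Pt a b c) + .some x₂ y₂ h₂ = .some x₃ y₃ h₃ → y₃ = -(ℓ * x₃ + ν) →
      y₁ = ℓ * x₁ + ν → y₂ = ℓ * x₂ + ν → x₁ + x₂ + x₃ = ℓ ^ 2 - a →
      x₁ * x₂ + x₁ * x₃ + x₂ * x₃ = b - 2 * ℓ * ν → x₁ * x₂ * x₃ = ν ^ 2 - c →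
      v (Te e (P + Q) - Te e P - Te e Q) ≤ ε * (v (Te e P) * v (Te e Q)) ∧
      v (Lo a b c e (P + Q) - Lo a b c e P - Lo a b c e Q) ≤ ε ^ 2 := by
    intro ℓ ν x₃ y₃ h₃ hadd hy3 hy1 hy2 E1 E2 E3
    obtain ⟨k1, l1⟩ := h.shape (cv_ns.1 h₁).1
    obtain ⟨k2, l2⟩ := h.shape (cv_ns.1 h₂).1
    obtain ⟨k3, l3⟩ := h.shape (cv_ns.1 h₃).1
    set M := ν + ℓ * e with hM
    have g1 : ℓ * (x₁ - e) + M = y₁ := by rw [hM, hy1]; ring
    have g2 : ℓ * (x₂ - e) + M = y₂ := by rw [hM, hy2]; ring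
    have g3 : ℓ * (x₃ - e) + M = -y₃ := by rw [hM, hy3]; ring
    have F1 : (x₁ - e) + (x₂ - e) + (x₃ - e) = ℓ ^ 2 - sA a e := by
      unfold sA; linear_combination E1
    have F2 : (x₁ - e) * (x₂ - e) + (x₁ - e) * (x₃ - e) + (x₂ - e) * (x₃ - e) =
        sB a b e - 2 * ℓ * M := by
      unfold sB; rw [hM]; linear_combination E2 - 2 * e * E1
    have F3 : (x₁ - e) * (x₂ - e) * (x₃ - e) = M ^ 2 - sC a b c e := by
      unfold sC; rw [hM]; linear_combination E3 - e * E2 + e ^ 2 * E1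
    obtain ⟨r1, r2⟩ := Cu.line h.na h.ε0 h.ε1 h.v2 h.v3 h.v5 h.v7 h.hA h.hB h.hC.le F1 F2 F3
      k1 k2 k3 (by rw [g1]; exact l1) (by rw [g2]; exact l2) (by rw [g3, v.map_neg]; exact l3)
    rw [g1, g2, g3] at r1 r2
    have t1 : Te e P = (x₁ - e) / y₁ := by rw [hP, Te_some]
    have t2 : Te e Q = (x₂ - e) / y₂ := by rw [hQ, Te_some]
    have t3 : Te e (P + Q) = (x₃ - e) / y₃ := by rw [hP, hQ, hadd, Te_some]
    constructor
    · rw [t1, t2, t3]
      have e1 : (x₃ - e) / y₃ - (x₁ - e) / y₁ - (x₂ - e) / y₂ =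
          -((x₁ - e) / y₁ + (x₂ - e) / y₂ + (x₃ - e) / -y₃) := by rw [div_neg]; ring
      rw [e1, v.map_neg]
      exact r1
    · unfold Lo
      rw [t1, t2, t3]
      have e1 : LL (sA a e) (sB a b e) (sC a b c e) ((x₃ - e) / y₃) =
          -LL (sA a e) (sB a b e) (sC a b c e) ((x₃ - e) / -y₃) := by
        rw [← LL_neg, div_neg, neg_neg]
      rw [e1]
      have e2 : ∀ p q r : K, -p - q - r = -(q + r + p) := by intros; ring
      rw [e2, v.map_neg]
      exact r2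
  have hy1 : y₁ ≠ 0 := by
    obtain ⟨k1, l1⟩ := h.shape (cv_ns.1 h₁).1
    rintro rfl
    rw [map_zero] at l1
    have : (1 : ℝ) ≤ v (x₁ - e) ^ 3 := one_le_pow₀ k1
    linarith [l1]
  by_cases hx : x₁ = x₂
  · subst hx
    rcases eq_or_neg h₁ h₂ with e' | e'
    · -- doubling
      rw [Affine.Point.some.injEq] at e'
      obtain ⟨-, rfl⟩ := e'
      have hy2' : 2 * y₁ ≠ 0 := mul_ne_zero two_ne_zero hy1
      have heq := (cv_ns.1 h₁).1
      obtain ⟨h₃, hadd⟩ := dbl_mk h₁ hy2' (ℓ := (3 * x₁ ^ 2 + 2 * a * x₁ + b) / (2 * y₁))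
        (div_mul_cancel₀ _ hy2')
      set ℓ := (3 * x₁ ^ 2 + 2 * a * x₁ + b) / (2 * y₁) with hℓ
      have hℓ' : ℓ * (2 * y₁) = 3 * x₁ ^ 2 + 2 * a * x₁ + b := div_mul_cancel₀ _ hy2'
      have hy1e : y₁ = ℓ * x₁ + (y₁ - ℓ * x₁) := by ring
      obtain ⟨v1, v2⟩ := vieta_tangent heq hy1e hℓ'
      exact concl ℓ (y₁ - ℓ * x₁) _ _ h₃ hadd (by ring) hy1e hy1e (by ring) v1 v2
    · -- opposite points
      have hPQ : P = -Q := by rw [hP, hQ, e']
      apply triv
      · rw [hPQ, neg_add_cancel, Te_zero, Te_neg]; ring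
      · rw [hPQ, neg_add_cancel, Lo_zero, Lo_neg]; ring
  · have heq1 := (cv_ns.1 h₁).1
    have heq2 := (cv_ns.1 h₂).1
    obtain ⟨h₃, hadd⟩ := add_mk h₁ h₂ hx (ℓ := (y₁ - y₂) / (x₁ - x₂))
      (div_mul_cancel₀ _ (sub_ne_zero.2 hx))
    set ℓ := (y₁ - y₂) / (x₁ - x₂) with hℓ
    have hℓ' : ℓ * (x₁ - x₂) = y₁ - y₂ := div_mul_cancel₀ _ (sub_ne_zero.2 hx)
    have hy1e : y₁ = ℓ * x₁ + (y₁ - ℓ * x₁) := by ring
    have hy2e : y₂ = ℓ * x₂ + (y₁ - ℓ * x₁) := by linear_combination hℓ'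
    obtain ⟨v1, v2⟩ := vieta_chord hx heq1 heq2 hy1e hy2e
    exact concl ℓ (y₁ - ℓ * x₁) _ _ h₃ hadd (by ring) hy1e hy2e (by ring) v1 v2

/-- the parameters of the multiples -/
lemma Cu.mul_le (h : Cu v ε a b c e) (P : Pt a b c) (n : ℕ) : v (Te e (n • P)) ≤ v (Te e P) := by
  have hv := h.na
  induction n with
  | zero => rw [zero_smul, Te_zero, map_zero]; exact v.nonneg _
  | succ n ih =>
    rw [succ_nsmul]
    have h1 := (h.add (n • P) P).1
    have e1 : Te e (n • P + P) = (Te e (n • P + P) - Te e (n • P) - Te e P) +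
      (Te e (n • P) + Te e P) := by ring
    rw [e1]
    refine na_add hv (h1.trans ?_) (na_add hv ih le_rfl)
    have h2 := h.Te_le (n • P)
    have h3 := h.ε1
    have h4 := h.ε0
    have h5 := v.nonneg (Te e P)
    have h6 := v.nonneg (Te e (n • P))
    calc ε * (v (Te e (n • P)) * v (Te e P)) ≤ 1 * (1 * v (Te e P)) := by gcongr
      _ = v (Te e P) := by ring

lemma Cu.mulz_le (h : Cu v ε a b c e) (P : Pt a b c) (n : ℤ) : v (Te e (n • P)) ≤ v (Te e P) := by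
  obtain ⟨m, rfl | rfl⟩ := n.eq_nat_or_neg
  · rw [natCast_zsmul]; exact h.mul_le P m
  · rw [neg_smul, natCast_zsmul, Te_neg, v.map_neg]; exact h.mul_le P m

lemma Cu.mul_sub (h : Cu v ε a b c e) (P : Pt a b c) (n : ℕ) :
    v (Te e (n • P) - n * Te e P) ≤ ε * (v (Te e P) * v (Te e P)) := by
  have hv := h.na
  induction n with
  | zero =>
    rw [zero_smul, Te_zero, Nat.cast_zero, zero_mul, sub_self, map_zero]
    exact mul_nonneg h.ε0.le (mul_nonneg (v.nonneg _) (v.nonneg _))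
  | succ n ih =>
    rw [succ_nsmul]
    have h1 := (h.add (n • P) P).1
    have e1 : Te e (n • P + P) - ((n + 1 : ℕ) : K) * Te e P =
      (Te e (n • P + P) - Te e (n • P) - Te e P) + (Te e (n • P) - n * Te e P) := by
      push_cast; ring
    rw [e1]
    refine na_add hv (h1.trans ?_) ih
    have h2 := h.mul_le P n
    have h4 := h.ε0
    have h5 := v.nonneg (Te e P)
    gcongr

lemma Cu.mul_log (h : Cu v ε a b c e) (P : Pt a b c) (n : ℕ) :
    v (Lo a b c e (n • P) - n * Lo a b c e P) ≤ ε ^ 2 := by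
  have hv := h.na
  induction n with
  | zero =>
    rw [zero_smul, Lo_zero, Nat.cast_zero, zero_mul, sub_self, map_zero]
    have := h.ε0
    positivity
  | succ n ih =>
    rw [succ_nsmul]
    have h1 := (h.add (n • P) P).2
    have e1 : Lo a b c e (n • P + P) - ((n + 1 : ℕ) : K) * Lo a b c e P =
      (Lo a b c e (n • P + P) - Lo a b c e (n • P) - Lo a b c e P) +
        (Lo a b c e (n • P) - n * Lo a b c e P) := by
      push_cast; ring
    rw [e1]
    exact na_add hv h1 ih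

/-- the approximate logarithm and the parameter -/
lemma Cu.log_sub (h : Cu v ε a b c e) (P : Pt a b c) {r : ℝ} (hr : v (Te e P) ^ 3 ≤ r) :
    v (Lo a b c e P - Te e P) ≤ ε * r := by
  have hv := h.na
  have h1 := h.Te_le P
  have h0 := v.nonneg (Te e P)
  have v3i : v (1 / 3 : K) = 1 := by rw [map_div₀, v.map_one, h.v3, div_one]
  have v5i : v (1 / 5 : K) = 1 := by rw [map_div₀, v.map_one, h.v5, div_one]
  have v7i : v (1 / 7 : K) = 1 := by rw [map_div₀, v.map_one, h.v7, div_one]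
  have e1 : Lo a b c e P - Te e P = sA a e * (1 / 3) * Te e P ^ 3 +
      2 * sB a b e * (1 / 5) * Te e P ^ 5 + 3 * sC a b c e * (1 / 7) * Te e P ^ 7 := by
    unfold Lo LL; ring
  rw [e1]
  have p5 : v (Te e P) ^ 5 ≤ r := (pow_le_pow_of_le_one h0 h1 (by norm_num)).trans hr
  have p7 : v (Te e P) ^ 7 ≤ r := (pow_le_pow_of_le_one h0 h1 (by norm_num)).trans hr
  refine na_add hv (na_add hv (vm (vm1 h.hA v3i.le) (by rwa [map_pow]))
    (vm (vm1 (vm1' h.v2.le h.hB) v5i.le) (by rwa [map_pow])))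
    (vm (vm1 (vm1' h.v3.le h.hC.le) v7i.le) (by rwa [map_pow]))

end points

end Pool.Agent.Y720.MZ
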