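import Pool.Agent.Y720.WD.Gra

/-!
# The conditions in terms of integers, and examples (helper720)
-/

set_option autoImplicit false
set_option linter.unusedVariables false
set_option linter.unusedSectionVars false

namespace Pool.Agent.Y720.MZ

section five

variable {p : ℕ} [hp : Fact p.Prime]

lemma five (h11 : 11 ≤ p) {a : Fin 5 → ZMod p} (h : ∀ k : ZMod p, ∑ i, a i * k ^ (i : ℕ) = 0) :
    ∀ i, a i = 0 := by
  have nz : ∀ n : ℕ, n ≠ 0 → n < 11 → (n : ZMod p) ≠ 0 := by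
    intro n h0 h1 h2
    rw [ZMod.natCast_eq_zero_iff] at h2
    have := Nat.le_of_dvd (Nat.pos_of_ne_zero h0) h2
    omega
  have n2 : (2 : ZMod p) ≠ 0 := by exact_mod_cast nz 2 (by norm_num) (by norm_num)
  have n3 : (3 : ZMod p) ≠ 0 := by exact_mod_cast nz 3 (by norm_num) (by norm_num)
  have h0 := h 0
  have h1 := h 1
  have h2 := h 2
  have h3 := h 3
  have h4 := h 4
  simp [Fin.sum_univ_five] at h0 h1 h2 h3 h4
  have n24 : (24 : ZMod p) ≠ 0 := by
    rw [show (24 : ZMod p) = 2 ^ 3 * 3 by norm_num]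
    exact mul_ne_zero (pow_ne_zero 3 n2) n3
  have n6 : (6 : ZMod p) ≠ 0 := by
    rw [show (6 : ZMod p) = 2 * 3 by norm_num]
    exact mul_ne_zero n2 n3
  have a4 : a 4 = 0 := by
    apply (mul_eq_zero.1 (?_ : (24 : ZMod p) * a 4 = 0)).resolve_left n24
    linear_combination h4 - 4 * h3 + 6 * h2 - 4 * h1 + h0
  have a3 : a 3 = 0 := by
    apply (mul_eq_zero.1 (?_ : (6 : ZMod p) * a 3 = 0)).resolve_left n6
    linear_combination h3 - 3 * h2 + 3 * h1 - h0 - 36 * a4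
  have a2 : a 2 = 0 := by
    apply (mul_eq_zero.1 (?_ : (2 : ZMod p) * a 2 = 0)).resolve_left n2
    linear_combination h2 - 2 * h1 + h0 - 6 * a3 - 14 * a4
  have a1 : a 1 = 0 := by
    linear_combination h1 - h0 - a2 - a3 - a4
  intro i
  fin_cases i
  · exact h0
  · exact a1
  · exact a2
  · exact a3
  · exact a4

lemma F4_zero (h11 : 11 ≤ p) {d : Fin 5 → Fin 5 → ℤ} (h : ∀ x y : ZMod p, F4 d x y = 0)
    (i j : Fin 5) : (d i j : ZMod p) = 0 := by
  have h1 : ∀ y : ZMod p, ∀ i, ∑ j, (d i j : ZMod p) * y ^ (j : ℕ) = 0 := by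
    intro y
    apply five h11
    intro x
    rw [← h x y]
    unfold F4
    refine Finset.sum_congr rfl fun i _ => ?_
    rw [Finset.sum_mul]
    refine Finset.sum_congr rfl fun j _ => ?_
    ring
  exact five h11 (fun y => h1 y i) j

/-- the conditions -/
theorem G4.of_int (h11 : 11 ≤ p) {c : Fin 5 → Fin 5 → ℤ} {ν b : ℤ} (h1 : ¬ IsSquare (ν : ZMod p))
    (h2 : ¬ (p : ℤ) ∣ b)
    (h3 : ∀ x y : ℤ, (p : ℤ) ∣ F4 c x y - ν * (x - y) ^ 3 * (x - y + b))
    (h4 : ∀ x : ℤ, ¬ (p : ℤ) ^ 2 ∣ F4 c x x) (h5 : ¬ (p : ℤ) ^ 2 ∣ c 4 4) :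
    ∃ h : Fin 5 → Fin 5 → ℤ, G4 p c h ν b := by
  have hp0 : (p : ℤ) ≠ 0 := by exact_mod_cast hp.out.ne_zero
  have hz : ∀ i j, ((c i j - g4 ν b i j : ℤ) : ZMod p) = 0 := by
    apply F4_zero h11
    intro x y
    have e : F4 (fun i j => c i j - g4 ν b i j) x y = F4 c x y - F4 (g4 ν b) x y := by
      unfold F4
      rw [← Finset.sum_sub_distrib]
      refine Finset.sum_congr rfl fun i _ => ?_
      rw [← Finset.sum_sub_distrib]
      refine Finset.sum_congr rfl fun j _ => ?_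
      push_cast; ring
    rw [e, F4_g4]
    have hx : ((x.val : ℤ) : ZMod p) = x := by simp
    have hy : ((y.val : ℤ) : ZMod p) = y := by simp
    have h6 := (ZMod.intCast_zmod_eq_zero_iff_dvd _ p).2 (h3 x.val y.val)
    have h7 : ((F4 c (x.val : ℤ) (y.val : ℤ) : ℤ) : ZMod p) = F4 c x y := by
      have := map_F4 c (Int.castRingHom (ZMod p)) (x.val : ℤ) (y.val : ℤ)
      simpa using this
    push_cast at h6
    rw [h7] at h6
    simpa using h6
  choose h hh using fun i j => (ZMod.intCast_zmod_eq_zero_iff_dvd _ p).1 (hz i j)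
  have hc : ∀ i j, c i j = g4 ν b i j + p * h i j := fun i j => by rw [← hh]; ring
  refine ⟨h, ⟨h11, hc, h1, ?_, ?_, ?_⟩⟩
  · intro h0
    exact h2 ((ZMod.intCast_zmod_eq_zero_iff_dvd _ p).1 h0)
  · intro k h0
    have hk : ((k.val : ℤ) : ZMod p) = k := by simp
    apply h4 k.val
    rw [F4_split hc, sub_self, zero_pow three_ne_zero, mul_zero, zero_mul, zero_add, sq]
    apply mul_dvd_mul_left
    rw [← ZMod.intCast_zmod_eq_zero_iff_dvd]
    have := map_F4 h (Int.castRingHom (ZMod p)) (k.val : ℤ) (k.val : ℤ)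
    rw [eq_intCast, eq_intCast, hk, h0] at this
    exact this
  · intro h0
    apply h5
    have : c 4 4 = p * h 4 4 := by rw [hc]; simp [g4]
    rw [this, sq]
    exact mul_dvd_mul_left _ ((ZMod.intCast_zmod_eq_zero_iff_dvd _ p).1 h0)

/-- the conditions only depend on the coefficients modulo the square of the prime -/
lemma cong_sq {c d : Fin 5 → Fin 5 → ℤ} (h : ∀ i j, (p : ℤ) ^ 2 ∣ c i j - d i j) (x y : ℤ) :
    (p : ℤ) ^ 2 ∣ F4 c x y - F4 d x y := by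
  have e : F4 c x y - F4 d x y = F4 (fun i j => c i j - d i j) x y := by
    unfold F4
    rw [← Finset.sum_sub_distrib]
    refine Finset.sum_congr rfl fun i _ => ?_
    rw [← Finset.sum_sub_distrib]
    refine Finset.sum_congr rfl fun j _ => ?_
    push_cast; ring
  rw [e]
  unfold F4
  refine Finset.dvd_sum fun i _ => Finset.dvd_sum fun j _ => ?_
  push_cast
  exact Dvd.dvd.mul_right (Dvd.dvd.mul_right (h i j) _) _

/-- the vector of coefficients of `(x ^ 2 - ν) ^ 2` -/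
def av5 (ν : ℤ) : Fin 5 → ℤ := ![ν ^ 2, 0, -2 * ν, 0, 1]

/-- an example -/
def ex4 (p : ℕ) (ν : ℤ) : Fin 5 → Fin 5 → ℤ :=
  fun i j => g4 ν (ν - 1) i j + p * (av5 ν i * av5 ν j)

lemma F4_ex4 (p : ℕ) (ν : ℤ) (x y : ℤ) : F4 (ex4 p ν) x y =
    ν * (x - y) ^ 3 * (x - y + (ν - 1)) + p * ((x ^ 2 - ν) ^ 2 * (y ^ 2 - ν) ^ 2) := by
  have h1 := F4_split (c := ex4 p ν) (h := fun i j => av5 ν i * av5 ν j) (ν := ν) (b := ν - 1)
    (p := p) (fun i j => rfl) x y
  rw [h1]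
  have h2 : F4 (fun i j => av5 ν i * av5 ν j) x y = (x ^ 2 - ν) ^ 2 * (y ^ 2 - ν) ^ 2 := by
    simp [F4, av5, Fin.sum_univ_five]
    ring
  rw [h2]
  simp

lemma ex4_ok (h11 : 11 ≤ p) {ν : ℤ} (hν : ¬ IsSquare (ν : ZMod p)) :
    ¬ (p : ℤ) ∣ (ν - 1) ∧
    (∀ x y : ℤ, (p : ℤ) ∣ F4 (ex4 p ν) x y - ν * (x - y) ^ 3 * (x - y + (ν - 1))) ∧
    (∀ x : ℤ, ¬ (p : ℤ) ^ 2 ∣ F4 (ex4 p ν) x x) ∧ ¬ (p : ℤ) ^ 2 ∣ ex4 p ν 4 4 := by
  have hp0 : (p : ℤ) ≠ 0 := by exact_mod_cast hp.out.ne_zero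
  refine ⟨?_, ?_, ?_, ?_⟩
  · intro h0
    apply hν
    have := (ZMod.intCast_zmod_eq_zero_iff_dvd _ p).2 h0
    push_cast at this
    rw [sub_eq_zero.1 this]
    exact IsSquare.one
  · intro x y
    rw [F4_ex4, add_sub_cancel_left]
    exact dvd_mul_right _ _
  · intro x h0
    rw [F4_ex4, sub_self, zero_pow three_ne_zero, mul_zero, zero_mul, zero_add, sq] at h0
    have h1 := (mul_dvd_mul_iff_left hp0).1 h0
    have hpp : Prime (p : ℤ) := Nat.prime_iff_prime_int.1 hp.out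
    have h2 : (p : ℤ) ∣ x ^ 2 - ν := by
      rcases hpp.dvd_or_dvd h1 with h | h <;> exact hpp.dvd_of_dvd_pow h
    apply hν
    have := (ZMod.intCast_zmod_eq_zero_iff_dvd _ p).2 h2
    push_cast at this
    rw [← sub_eq_zero.1 this]
    exact ⟨_, sq _⟩
  · intro h0
    have h1 : ex4 p ν 4 4 = p * 1 := by simp [ex4, g4, av5]
    rw [h1, sq] at h0
    have h2 := (mul_dvd_mul_iff_left hp0).1 h0
    have hpp : Prime (p : ℤ) := Nat.prime_iff_prime_int.1 hp.out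
    exact hpp.not_dvd_one h2

end five

end Pool.Agent.Y720.MZ
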