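import Pool.Agent.Y720.WD.Fillc

/-!
# Rational points on a genus one curve of type II are dense (helper720)
-/

set_option autoImplicit false
set_option linter.unusedVariables false
set_option linter.unusedSectionVars false

open WeierstrassCurve Filter Topology

namespace Pool.Agent.Y720.MZ

lemma perturb' {L : Type*} [NontriviallyNormedField L] [CompleteSpace L] [CharZero L] {g : L → L}
    (hg : Continuous g) {t Y : L} (h : Y ^ 2 = g t) (hY : Y ≠ 0) {η : ℝ} (hη : 0 < η)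
    {B : Set L} (hB : B.Finite) :
    ∃ t' Y' : L, t' ∉ B ∧ ‖t' - t‖ < η ∧ ‖Y' - Y‖ < η ∧ Y' ^ 2 = g t' := by
  obtain ⟨δ, hδ, hs⟩ := exists_sqrt hY hη
  have h1 : ∀ᶠ t' in 𝓝 t, ‖g t' - Y ^ 2‖ < δ := by
    have h2 : Tendsto (fun t' => ‖g t' - Y ^ 2‖) (𝓝 t) (𝓝 0) := by
      have := ((hg.tendsto t).sub_const (Y ^ 2)).norm
      rwa [← h, sub_self, norm_zero] at this
    exact h2.eventually_lt_const hδ
  have h3 : ∀ᶠ t' in 𝓝 t, ‖t' - t‖ < η := by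
    have h2 : Tendsto (fun t' => ‖t' - t‖) (𝓝 t) (𝓝 0) := by
      have := ((continuous_id.tendsto t).sub_const t).norm
      rwa [id, sub_self, norm_zero] at this
    exact h2.eventually_lt_const hη
  have h4 : ∃ᶠ t' in 𝓝 t, t' ∈ (Set.univ \ B) := by
    have := (dense_univ.sdiff_finite hB) t
    rwa [mem_closure_iff_frequently] at this
  obtain ⟨t', e1, e2, e3⟩ := (h4.and_eventually (h1.and h3)).exists
  obtain ⟨Y', e4, e5⟩ := hs _ e2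
  exact ⟨t', Y', e1.2, e3, e4, e5⟩

section lip

variable {F : Type*} [Field F] {v : AbsoluteValue F ℝ} {a b c e : F} {ε : ℝ}

lemma Cu.ts (h : Cu v ε a b c e) {x y : F} (hxy : y ^ 2 = x ^ 3 + a * x ^ 2 + b * x + c) :
    y ≠ 0 ∧ v ((x - e) / y) ≤ 1 ∧ v (1 / y) ≤ 1 ∧
    1 / y = ((x - e) / y) ^ 3 + sA a e * ((x - e) / y) ^ 2 * (1 / y) +
      sB a b e * ((x - e) / y) * (1 / y) ^ 2 + sC a b c e * (1 / y) ^ 3 := by
  obtain ⟨h1, h2⟩ := h.shape hxy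
  have hy : y ≠ 0 := by
    rintro rfl
    rw [map_zero] at h2
    have : (1 : ℝ) ≤ v (x - e) ^ 3 := one_le_pow₀ h1
    linarith [h2]
  have h0 : 0 < v (x - e) := by linarith
  have hy1 : 1 ≤ v y := by
    by_contra hcon
    push Not at hcon
    have := pow_lt_one₀ (v.nonneg y) hcon two_ne_zero
    have : (1 : ℝ) ≤ v (x - e) ^ 3 := one_le_pow₀ h1
    linarith
  refine ⟨hy, ?_, ?_, ?_⟩
  · by_contra hcon
    push Not at hcon
    have h3 : v ((x - e) / y) ^ 2 * v (x - e) = 1 := by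
      rw [map_div₀, div_pow, h2]; field_simp
    have : 1 < v ((x - e) / y) ^ 2 := one_lt_pow₀ hcon (by norm_num)
    nlinarith
  · rw [map_div₀, v.map_one, div_le_one (by linarith)]; exact hy1
  · have e1 : y ^ 2 = (x - e) ^ 3 + sA a e * (x - e) ^ 2 + sB a b e * (x - e) + sC a b c e := by
      rw [hxy]; unfold sA sB sC; ring
    exact ts_eqn hy e1

lemma Cu.lip (h : Cu v ε a b c e) {x y x' y' : F} (hxy : y ^ 2 = x ^ 3 + a * x ^ 2 + b * x + c)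
    (hxy' : y' ^ 2 = x' ^ 3 + a * x' ^ 2 + b * x' + c) :
    v (1 / y - 1 / y') ≤ v ((x - e) / y - (x' - e) / y') := by
  have hv := h.na
  obtain ⟨-, a1, a2, a3⟩ := h.ts hxy
  obtain ⟨-, b1, b2, b3⟩ := h.ts hxy'
  have h3 := hid a3 b3
  set A := sA a e
  set B := sB a b e
  set C := sC a b c e
  set t₁ := (x - e) / y
  set t₂ := (x' - e) / y'
  set s₁ := 1 / y
  set s₂ := 1 / y'
  have hA : v A ≤ ε := h.hA
  have hB : v B ≤ ε := h.hB
  have hC : v C ≤ ε := h.hC.le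
  have ss : v (s₁ + s₂) ≤ 1 := na_add hv a2 b2
  have sss : v (s₁ ^ 2 + s₁ * s₂ + s₂ ^ 2) ≤ 1 :=
    na_add hv (na_add hv (vp1 a2 2) (vm1 a2 b2)) (vp1 b2 2)
  have f1 : v (-(A * t₂ ^ 2 + B * t₂ * (s₁ + s₂) + C * (s₁ ^ 2 + s₁ * s₂ + s₂ ^ 2))) ≤ ε := by
    rw [v.map_neg]
    exact na_add hv (na_add hv (vm1 hA (vp1 b1 2)) (vm1 (vm1 hB b1) ss)) (vm1 hC sss)
  have f2 : v (1 - (A * t₂ ^ 2 + B * t₂ * (s₁ + s₂) + C * (s₁ ^ 2 + s₁ * s₂ + s₂ ^ 2))) = 1 := by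
    rw [sub_eq_add_neg, na_eq hv, v.map_one]
    rw [v.map_one]; exact f1.trans_lt h.ε1
  have hA1 := hA.trans h.ε1.le
  have hB1 := hB.trans h.ε1.le
  have f3 : v (t₁ ^ 2 + t₁ * t₂ + t₂ ^ 2 + A * (t₁ + t₂) * s₁ + B * s₁ ^ 2) ≤ 1 :=
    na_add hv (na_add hv (na_add hv (na_add hv (vp1 a1 2) (vm1 a1 b1)) (vp1 b1 2))
      (vm1 (vm1 hA1 (na_add hv a1 b1)) a2)) (vm1 hB1 (vp1 a2 2))
  have h4 := congrArg v h3
  rw [map_mul, f2, mul_one] at h4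
  rw [h4]
  exact vm1 le_rfl f3

end lip

section pd

variable {p : ℕ} [hp : Fact p.Prime]

lemma av_na' {K : Type*} [Field K] (σ : K →+* ℚ_[p]) : IsNonarchimedean (av σ) := by
  intro x y
  simp only [av_apply, map_add]
  exact Padic.nonarchimedean _ _

/-- from the completion to the field -/
lemma Cu.of_map {K : Type*} [Field K] (σ : K →+* ℚ_[p]) {a b c e : K}
    (h : Cu (av (RingHom.id ℚ_[p])) ‖(p : ℚ_[p])‖ (σ a) (σ b) (σ c) (σ e)) :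
    Cu (av σ) ‖(p : ℚ_[p])‖ a b c e where
  na := av_na' σ
  ε0 := h.ε0
  ε1 := h.ε1
  disc := fun x hx => h.disc (σ x) hx
  nsq := fun x => h.nsq (σ x)
  v2 := by have := h.v2; rw [av_apply] at this ⊢; simpa [map_ofNat] using this
  v3 := by have := h.v3; rw [av_apply] at this ⊢; simpa [map_ofNat] using this
  v5 := by have := h.v5; rw [av_apply] at this ⊢; simpa [map_ofNat] using this
  v7 := by have := h.v7; rw [av_apply] at this ⊢; simpa [map_ofNat] using this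
  hA := by have := h.hA; rw [av_apply] at this ⊢; simpa [sA, map_ofNat] using this
  hB := by have := h.hB; rw [av_apply] at this ⊢; simpa [sB, map_ofNat] using this
  hC := by have := h.hC; rw [av_apply] at this ⊢; simpa [sC, map_ofNat] using this

lemma Cu.to_map {K : Type*} [Field K] (σ : K →+* ℚ_[p]) {a b c e : K}
    (h : Cu (av σ) ‖(p : ℚ_[p])‖ a b c e)
    (h0 : ∀ x : ℚ_[p], ‖x‖ < 1 → ‖x‖ ≤ ‖(p : ℚ_[p])‖) (h0' : ∀ x : ℚ_[p], ‖x‖ ^ 2 ≠ ‖(p : ℚ_[p])‖) :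
    Cu (av (RingHom.id ℚ_[p])) ‖(p : ℚ_[p])‖ (σ a) (σ b) (σ c) (σ e) where
  na := av_na' (RingHom.id ℚ_[p])
  ε0 := h.ε0
  ε1 := h.ε1
  disc := fun x hx => h0 x hx
  nsq := fun x => h0' x
  v2 := by have := h.v2; rw [av_apply] at this ⊢; simpa [map_ofNat] using this
  v3 := by have := h.v3; rw [av_apply] at this ⊢; simpa [map_ofNat] using this
  v5 := by have := h.v5; rw [av_apply] at this ⊢; simpa [map_ofNat] using this
  v7 := by have := h.v7; rw [av_apply] at this ⊢; simpa [map_ofNat] using this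
  hA := by have := h.hA; rw [av_apply] at this ⊢; simpa [sA, map_ofNat] using this
  hB := by have := h.hB; rw [av_apply] at this ⊢; simpa [sB, map_ofNat] using this
  hC := by have := h.hC; rw [av_apply] at this ⊢; simpa [sC, map_ofNat] using this

lemma padic_disc (x : ℚ_[p]) (hx : ‖x‖ < 1) : ‖x‖ ≤ ‖(p : ℚ_[p])‖ := by
  rw [Padic.norm_p, ← zpow_neg_one]
  rw [Padic.norm_le_pow_iff_norm_lt_pow_add_one]
  simpa using hx

lemma padic_nsq (x : ℚ_[p]) : ‖x‖ ^ 2 ≠ ‖(p : ℚ_[p])‖ := by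
  intro h
  have hx : x ≠ 0 := by
    rintro rfl
    rw [norm_zero] at h
    have := norm_p_pos (p := p)
    rw [← h] at this
    norm_num at this
  rw [Padic.norm_eq_zpow_neg_valuation hx, Padic.norm_p, ← zpow_neg_one, ← zpow_natCast,
    ← zpow_mul] at h
  have hp1 : (1 : ℝ) < p := by exact_mod_cast hp.out.one_lt
  have := zpow_right_injective₀ (by linarith) hp1.ne' h
  push_cast at this
  omega

end pd

section conv

variable {K : Type*} [Field K] [CharZero K] {p : ℕ} [hp : Fact p.Prime] {σ : K →+* ℚ_[p]}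

/-- the quartic point is a continuous function of the parameter -/
theorem Cu.conv {w q₁ q₂ q₃ q₄ e : K}
    (hB : Cu (av σ) ‖(p : ℚ_[p])‖ q₂ (rb w q₁ q₃ q₄) (rc w q₁ q₂ q₃ q₄) e) (hw : w ≠ 0)
    {x y : ℚ_[p]}
    (hxy : y ^ 2 = x ^ 3 + σ q₂ * x ^ 2 + rb (σ w) (σ q₁) (σ q₃) (σ q₄) * x +
      rc (σ w) (σ q₁) (σ q₂) (σ q₃) (σ q₄))
    (hD : Df (σ w) (σ q₁) (σ q₃) x y ≠ 0) {η' : ℝ} (hη' : 0 < η') :
    ∃ η : ℝ, 0 < η ∧ ∀ x' y' : K,
      y' ^ 2 = x' ^ 3 + q₂ * x' ^ 2 + rb w q₁ q₃ q₄ * x' + rc w q₁ q₂ q₃ q₄ →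
      ‖σ ((x' - e) / y') - (x - σ e) / y‖ < η →
      Df w q₁ q₃ x' y' ≠ 0 ∧
      ‖σ (tf w q₁ q₂ q₃ x' y') - tf (σ w) (σ q₁) (σ q₂) (σ q₃) x y‖ < η' ∧
      ‖σ (Yf w q₁ q₂ q₃ x' y') - Yf (σ w) (σ q₁) (σ q₂) (σ q₃) x y‖ < η' := by
  have hw' : σ w ≠ 0 := (map_ne_zero σ).2 hw
  have hrb : σ (rb w q₁ q₃ q₄) = rb (σ w) (σ q₁) (σ q₃) (σ q₄) := by
    simp [rb, map_ofNat]
  have hrc : σ (rc w q₁ q₂ q₃ q₄) = rc (σ w) (σ q₁) (σ q₂) (σ q₃) (σ q₄) := by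
    simp [rc, map_ofNat]
  have hBL := hB.to_map σ padic_disc padic_nsq
  rw [hrb, hrc] at hBL
  obtain ⟨hy, -, -, -⟩ := hBL.ts hxy
  -- the map from `(t, s)` to the quartic
  let D : ℚ_[p] × ℚ_[p] → ℚ_[p] := fun u => Df (σ w) (σ q₁) (σ q₃) (u.1 / u.2 + σ e) (1 / u.2)
  let T : ℚ_[p] × ℚ_[p] → ℚ_[p] := fun u =>
    tf (σ w) (σ q₁) (σ q₂) (σ q₃) (u.1 / u.2 + σ e) (1 / u.2)
  let Y : ℚ_[p] × ℚ_[p] → ℚ_[p] := fun u =>
    Yf (σ w) (σ q₁) (σ q₂) (σ q₃) (u.1 / u.2 + σ e) (1 / u.2)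
  have hs0 : 1 / y ≠ 0 := one_div_ne_zero hy
  have e1 : (x - σ e) / y / (1 / y) + σ e = x := by field_simp; ring
  have e2 : 1 / (1 / y) = y := one_div_one_div y
  have hsn0 : ContinuousAt (fun u : ℚ_[p] × ℚ_[p] => u.1 / u.2) ((x - σ e) / y, 1 / y) :=
    ContinuousAt.div continuousAt_fst continuousAt_snd hs0
  have hsn : ContinuousAt (fun u : ℚ_[p] × ℚ_[p] => u.1 / u.2 + σ e) ((x - σ e) / y, 1 / y) :=
    hsn0.add continuousAt_const
  have hsn' : ContinuousAt (fun u : ℚ_[p] × ℚ_[p] => 1 / u.2) ((x - σ e) / y, 1 / y) :=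
    ContinuousAt.div (f := fun _ : ℚ_[p] × ℚ_[p] => (1 : ℚ_[p]))
      (g := fun u : ℚ_[p] × ℚ_[p] => u.2) continuousAt_const continuousAt_snd hs0
  have hDc : ContinuousAt D ((x - σ e) / y, 1 / y) := by
    simp only [D, Df]
    exact ((hsn'.const_mul _).sub (hsn.const_mul _)).sub continuousAt_const
  have hD0 : D ((x - σ e) / y, 1 / y) = Df (σ w) (σ q₁) (σ q₃) x y := by
    simp only [D, e1, e2]
  have hT0 : T ((x - σ e) / y, 1 / y) = tf (σ w) (σ q₁) (σ q₂) (σ q₃) x y := by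
    simp only [T, e1, e2]
  have hY0 : Y ((x - σ e) / y, 1 / y) = Yf (σ w) (σ q₁) (σ q₂) (σ q₃) x y := by
    simp only [Y, e1, e2]
  have hTc : ContinuousAt T ((x - σ e) / y, 1 / y) := by
    have h1 : ContinuousAt (fun u : ℚ_[p] × ℚ_[p] => Nf (σ w) (σ q₁) (σ q₂) (u.1 / u.2 + σ e))
        ((x - σ e) / y, 1 / y) := by
      simp only [Nf]
      exact ((hsn.add continuousAt_const).const_mul _).sub continuousAt_const
    exact h1.div hDc (by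
      change D ((x - σ e) / y, 1 / y) ≠ 0
      rw [hD0]; exact hD)
  have hYc : ContinuousAt Y ((x - σ e) / y, 1 / y) := by
    have h1 : Y = fun u : ℚ_[p] × ℚ_[p] => -σ w + T u * (T u * (u.1 / u.2 + σ e) - σ q₁) /
      (2 * σ w) := rfl
    rw [h1]
    exact continuousAt_const.add ((hTc.mul ((hTc.mul hsn).sub continuousAt_const)).div_const _)
  have v1 : ∀ᶠ u in 𝓝 ((x - σ e) / y, 1 / y), D u ≠ 0 := hDc.eventually_ne (by rw [hD0]; exact hD)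
  have v2 : ∀ᶠ u in 𝓝 ((x - σ e) / y, 1 / y), ‖T u - T ((x - σ e) / y, 1 / y)‖ < η' := by
    have h1 := (hTc.tendsto.sub_const (T ((x - σ e) / y, 1 / y))).norm
    rw [sub_self, norm_zero] at h1
    exact h1.eventually_lt_const hη'
  have v3 : ∀ᶠ u in 𝓝 ((x - σ e) / y, 1 / y), ‖Y u - Y ((x - σ e) / y, 1 / y)‖ < η' := by
    have h1 := (hYc.tendsto.sub_const (Y ((x - σ e) / y, 1 / y))).norm
    rw [sub_self, norm_zero] at h1
    exact h1.eventually_lt_const hη'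
  obtain ⟨η, hη, hb⟩ := Metric.eventually_nhds_iff_ball.1 (v1.and (v2.and v3))
  refine ⟨η, hη, fun x' y' hxy' h3 => ?_⟩
  obtain ⟨hy', -, -, -⟩ := hB.ts hxy'
  have hy'' : σ y' ≠ 0 := (map_ne_zero σ).2 hy'
  -- the ordinates are close
  have q2 := congrArg σ hxy'
  simp only [map_add, map_mul, map_pow, hrb, hrc] at q2
  have h4 := hBL.lip q2 hxy
  rw [av_apply, av_apply, RingHom.id_apply, RingHom.id_apply] at h4
  have m1 : (σ x' - σ e) / σ y' = σ ((x' - e) / y') := by simp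
  have m2 : 1 / σ y' = σ (1 / y') := by simp
  rw [m1, m2] at h4
  have hmem : (σ ((x' - e) / y'), σ (1 / y')) ∈ Metric.ball ((x - σ e) / y, 1 / y) η := by
    rw [Metric.mem_ball, Prod.dist_eq]
    refine max_lt ?_ ?_
    · rw [dist_eq_norm]; exact h3
    · rw [dist_eq_norm]; exact h4.trans_lt h3
  obtain ⟨b1, b2, b3⟩ := hb _ hmem
  have e3 : σ ((x' - e) / y') / σ (1 / y') + σ e = σ x' := by
    rw [← m1, ← m2]; field_simp; ring
  have e4 : 1 / σ (1 / y') = σ y' := by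
    rw [map_div₀, map_one, one_div_one_div]
  have hDe : D (σ ((x' - e) / y'), σ (1 / y')) = σ (Df w q₁ q₃ x' y') := by
    simp only [D, e3, e4]; simp [Df, map_ofNat]
  have hTe : T (σ ((x' - e) / y'), σ (1 / y')) = σ (tf w q₁ q₂ q₃ x' y') := by
    simp only [T, e3, e4, map_tf]
  have hYe : Y (σ ((x' - e) / y'), σ (1 / y')) = σ (Yf w q₁ q₂ q₃ x' y') := by
    simp only [Y, e3, e4, map_Yf]
  refine ⟨?_, ?_, ?_⟩
  · intro h0
    apply b1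
    rw [hDe, h0, map_zero]
  · rw [← hTe, ← hT0]; exact b2
  · rw [← hYe, ← hY0]; exact b3

/-- from a local point of the quartic to a local point of the resolvent -/
lemma Cu.back {w q₁ q₂ q₃ q₄ : ℚ_[p]} (hw : w ≠ 0)
    (hY0 : ys w q₁ q₂ q₃ ≠ 0) {t Y : ℚ_[p]} (h : Y ^ 2 = w ^ 2 + q₁ * t + q₂ * t ^ 2 + q₃ * t ^ 3 +
      q₄ * t ^ 4) (hYn : Y ≠ 0) {η : ℝ} (hη : 0 < η) :
    ∃ t' Y' x y : ℚ_[p], ‖t' - t‖ < η ∧ ‖Y' - Y‖ < η ∧
      y ^ 2 = x ^ 3 + q₂ * x ^ 2 + rb w q₁ q₃ q₄ * x + rc w q₁ q₂ q₃ q₄ ∧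
      Df w q₁ q₃ x y ≠ 0 ∧ t' = tf w q₁ q₂ q₃ x y ∧ Y' = Yf w q₁ q₂ q₃ x y := by
  have h2w : 2 * w ≠ 0 := mul_ne_zero two_ne_zero hw
  set α := xs w q₁ q₂ ^ 2 - 4 * w ^ 2 * q₄ with hα
  set β := 2 * (q₁ * xs w q₁ q₂ + 2 * w ^ 2 * q₃) with hβ
  have hβ0 : β ≠ 0 := by
    have : β = 4 * w * ys w q₁ q₂ q₃ := by rw [hβ, ys]; field_simp; ring
    rw [this]
    exact mul_ne_zero (mul_ne_zero (by norm_num) hw) hY0
  obtain ⟨t', Y', k1, k2, k3, k4⟩ := perturb' (g := fun t => w ^ 2 + q₁ * t + q₂ * t ^ 2 +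
    q₃ * t ^ 3 + q₄ * t ^ 4) (by fun_prop) h hYn hη (B := {0, β / α})
    ((Set.finite_singleton _).insert _)
  have ht' : t' ≠ 0 := by
    rintro rfl
    exact k1 (Set.mem_insert _ _)
  have hαβ : α * t' ≠ β := by
    intro h0
    apply k1
    have : α ≠ 0 := by
      intro h1
      rw [h1, zero_mul] at h0
      exact hβ0 h0.symm
    refine Set.mem_insert_of_mem _ ?_
    rw [Set.mem_singleton_iff, eq_div_iff this, mul_comm]
    exact h0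
  set x := (2 * w * (Y' + w) + q₁ * t') / t' ^ 2 with hx
  have hx' : t' ^ 2 * x = 2 * w * (Y' + w) + q₁ * t' := by
    rw [hx]; field_simp
  set y := (Nf w q₁ q₂ x / t' + q₁ * x + 2 * w ^ 2 * q₃) / (2 * w) with hy
  have hy' : t' * Df w q₁ q₃ x y = Nf w q₁ q₂ x := by
    have : 2 * w * y = Nf w q₁ q₂ x / t' + q₁ * x + 2 * w ^ 2 * q₃ := by
      rw [hy, mul_div_cancel₀ _ h2w]
    rw [Df, this]
    field_simp
    ring
  obtain ⟨g1, g2⟩ := from_quartic hw ht' k4 hx' hy'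
  have hN : Nf w q₁ q₂ x ≠ 0 := by
    intro h0
    have hxs : x = xs w q₁ q₂ := by
      unfold Nf at h0
      unfold xs
      field_simp
      linear_combination h0
    have e1 : 2 * w * Y' = t' ^ 2 * x - q₁ * t' - 2 * w ^ 2 := by linear_combination -hx'
    have e2 : t' ^ 2 * (t' * (t' * (x ^ 2 - 4 * w ^ 2 * q₄) - 2 * (q₁ * x + 2 * w ^ 2 * q₃)) -
        Nf w q₁ q₂ x) = 0 := by
      unfold Nf
      linear_combination (-(2 * w * Y') - (t' ^ 2 * x - q₁ * t' - 2 * w ^ 2)) * e1 +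
        4 * w ^ 2 * k4
    rw [h0, sub_zero, mul_eq_zero, mul_eq_zero] at e2
    rcases e2 with e2 | e2 | e2
    · exact pow_ne_zero 2 ht' e2
    · exact ht' e2
    · apply hαβ
      rw [hα, hβ, ← hxs]
      linear_combination e2
  have hD : Df w q₁ q₃ x y ≠ 0 := by
    intro h0
    rw [h0, mul_zero] at hy'
    exact hN hy'.symm
  have htf : t' = tf w q₁ q₂ q₃ x y := by
    rw [tf, ← hy', mul_div_assoc, div_self hD, mul_one]
  exact ⟨t', Y', x, y, k2, k3, g1, hD, htf, by rw [Yf, ← htf]; exact g2⟩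

end conv

section core

variable {K : Type*} [Field K] [CharZero K] {ι : Type*} [Fintype ι] {p : ι → ℕ}
  [hp : ∀ i, Fact (p i).Prime] {σ : ∀ i, K →+* ℚ_[p i]}

/-- **The rational points of a genus one curve of type II are dense.** -/
theorem fib_core [Nonempty ι] (hinj : Function.Injective p) {θ : K × (Fin 4 → K)} (hw : θ.1 ≠ 0)
    {e : ι → K}
    (h : ∀ i, Cu (av (σ i)) ‖(p i : ℚ_[p i])‖ (tA θ) (tB θ) (tC θ) (e i))
    (hD : ∀ i, ‖σ i (tX θ - e i)‖ = 1) {t Y : ∀ i, ℚ_[p i]}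
    (hY : ∀ i, Y i ^ 2 = qv (σ i θ.1) (fun j => σ i (θ.2 j)) (t i)) (hY0 : ∀ i, Y i ≠ 0) {η : ℝ}
    (hη : 0 < η) : ∃ s Z : K, Z ^ 2 = qv θ.1 θ.2 s ∧ ∀ i, ‖σ i s - t i‖ < η ∧
      ‖σ i Z - Y i‖ < η := by
  classical
  obtain ⟨i₀⟩ := ‹Nonempty ι›
  have heq : tY θ ^ 2 = tX θ ^ 3 + tA θ * tX θ ^ 2 + tB θ * tX θ + tC θ := s_eqn hw
  have hy0 : tY θ ≠ 0 := ((h i₀).ts heq).1
  have hns : (cv (tA θ) (tB θ) (tC θ)).toAffine.Nonsingular (tX θ) (tY θ) :=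
    cv_ns.2 ⟨heq, Or.inr (mul_ne_zero two_ne_zero hy0)⟩
  set R : Pt (tA θ) (tB θ) (tC θ) := .some _ _ hns with hR
  have hR1 : ∀ i, av (σ i) (Te (e i) R) = 1 := by
    intro i
    obtain ⟨h1, h2⟩ := (h i).shape heq
    have h3 : av (σ i) (tX θ - e i) = 1 := hD i
    rw [h3, one_pow] at h2
    have h4 : av (σ i) (tY θ) = 1 := by
      have h5 : av (σ i) (tY θ) ^ 2 = 1 ^ 2 := by rw [h2, one_pow]
      exact (pow_left_inj₀ ((av (σ i)).nonneg _) zero_le_one two_ne_zero).1 h5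
    rw [hR, Te_some, map_div₀, h3, h4, div_one]
  -- the local points of the resolvents
  have hb : ∀ i, ∃ t' Y' x y : ℚ_[p i], ‖t' - t i‖ < η / 2 ∧ ‖Y' - Y i‖ < η / 2 ∧
      y ^ 2 = x ^ 3 + σ i (θ.2 1) * x ^ 2 + rb (σ i θ.1) (σ i (θ.2 0)) (σ i (θ.2 2))
        (σ i (θ.2 3)) * x + rc (σ i θ.1) (σ i (θ.2 0)) (σ i (θ.2 1)) (σ i (θ.2 2))
        (σ i (θ.2 3)) ∧
      Df (σ i θ.1) (σ i (θ.2 0)) (σ i (θ.2 2)) x y ≠ 0 ∧
      t' = tf (σ i θ.1) (σ i (θ.2 0)) (σ i (θ.2 1)) (σ i (θ.2 2)) x y ∧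
      Y' = Yf (σ i θ.1) (σ i (θ.2 0)) (σ i (θ.2 1)) (σ i (θ.2 2)) x y := by
    intro i
    refine Cu.back (w := σ i θ.1) ((map_ne_zero _).2 hw) ?_ (hY i) (hY0 i) (half_pos hη)
    have : ys (σ i θ.1) (σ i (θ.2 0)) (σ i (θ.2 1)) (σ i (θ.2 2)) = σ i (tY θ) := by
      simp [tY, ys, xs, map_ofNat]
    rw [this]
    exact (map_ne_zero _).2 hy0
  choose t' Y' x y b1 b2 b3 b4 b5 b6 using hb
  choose ηp hηp hcc using fun i => Cu.conv (σ := σ i) (w := θ.1) (q₁ := θ.2 0) (q₂ := θ.2 1)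
    (q₃ := θ.2 2) (q₄ := θ.2 3) (h i) hw (b3 i) (b4 i) (half_pos hη)
  obtain ⟨η₁, hη₁, hη₁p⟩ := fin_min hηp
  -- the targets
  have hBL := fun i => (h i).to_map (σ i) padic_disc padic_nsq
  have hts : ∀ i, ‖(x i - σ i (e i)) / y i‖ ≤ 1 ∧ y i ≠ 0 := by
    intro i
    have h1 := hBL i
    have hrb : σ i (tB θ) = rb (σ i θ.1) (σ i (θ.2 0)) (σ i (θ.2 2)) (σ i (θ.2 3)) := by
      simp [tB, rb, map_ofNat]
    have hrc : σ i (tC θ) = rc (σ i θ.1) (σ i (θ.2 0)) (σ i (θ.2 1)) (σ i (θ.2 2))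
        (σ i (θ.2 3)) := by
      simp [tC, rc, map_ofNat]
    rw [hrb, hrc] at h1
    obtain ⟨c1, c2, -, -⟩ := h1.ts (b3 i)
    exact ⟨c2, c1⟩
  -- avoid the origin
  obtain ⟨ρ, hρ, hρp⟩ := fin_min (f := fun i => ‖(p i : ℚ_[p i])‖) fun i => norm_p_pos
  have hz : ∀ i, ∃ ξ : ℚ_[p i], ‖ξ‖ ≤ 1 ∧ ‖ξ - (x i - σ i (e i)) / y i‖ < η₁ ∧ ξ ≠ 0 := by
    intro i
    by_cases h0 : (x i - σ i (e i)) / y i = 0
    · obtain ⟨J, hJ⟩ := ((tendsto_pow_atTop_nhds_zero_of_lt_one (norm_nonneg _)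
        (norm_p_lt (p := p i))).eventually_lt_const hη₁).exists
      refine ⟨(p i : ℚ_[p i]) ^ J, ?_, ?_, pow_ne_zero _ (by exact_mod_cast (hp i).out.ne_zero)⟩
      · rw [norm_pow]; exact pow_le_one₀ (norm_nonneg _) (norm_p_lt (p := p i)).le
      · rw [h0, sub_zero, norm_pow]; exact hJ
    · exact ⟨_, (hts i).1, by rw [sub_self, norm_zero]; exact hη₁, h0⟩
  choose ξ z1 z2 z3 using hz
  obtain ⟨n, hn⟩ := Cu.fill hinj h hR1 ξ z1 (η := min η₁ ‖ξ i₀‖)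
    (lt_min hη₁ (norm_pos_iff.2 (z3 i₀)))
  have hTT : Te (e i₀) (n • R) ≠ 0 := by
    intro h0
    have h2 := hn i₀
    rw [h0, map_zero, zero_sub, norm_neg] at h2
    exact absurd (h2.trans_le (min_le_right _ _)) (lt_irrefl _)
  revert hn hTT
  generalize n • R = Q
  intro hn hTT
  rcases Q with _ | ⟨X, W, hQ⟩
  · exact absurd rfl hTT
  have hXW := (cv_ns.1 hQ).1
  simp only [Te_some] at hn
  have hA : ∀ i, _ := fun i => hcc i X W hXW (by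
    have e1 : σ i ((X - e i) / W) - (x i - σ i (e i)) / y i =
      (σ i ((X - e i) / W) - ξ i) + (ξ i - (x i - σ i (e i)) / y i) := by ring
    rw [e1]
    exact (Padic.nonarchimedean _ _).trans_lt (max_lt
      ((hn i).trans_le ((min_le_left _ _).trans (hη₁p i))) ((z2 i).trans_le (hη₁p i))))
  refine ⟨tf θ.1 (θ.2 0) (θ.2 1) (θ.2 2) X W, Yf θ.1 (θ.2 0) (θ.2 1) (θ.2 2) X W,
    Yf_eqn hw hXW (hA i₀).1, fun i => ⟨?_, ?_⟩⟩
  · obtain ⟨-, a2, a3⟩ := hA i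
    rw [← b5 i] at a2
    have := norm_sub_le_norm_sub_add_norm_sub (σ i (tf θ.1 (θ.2 0) (θ.2 1) (θ.2 2) X W)) (t' i) (t i)
    have := b1 i
    linarith
  · obtain ⟨-, a2, a3⟩ := hA i
    rw [← b6 i] at a3
    have := norm_sub_le_norm_sub_add_norm_sub (σ i (Yf θ.1 (θ.2 0) (θ.2 1) (θ.2 2) X W)) (Y' i) (Y i)
    have := b2 i
    linarith

end core

end Pool.Agent.Y720.MZ
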