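import Pool.Agent.Y720.WD.Cusp2

/-!
# The multiples of a point are dense (helper720)
-/

set_option autoImplicit false
set_option linter.unusedVariables false
set_option linter.unusedSectionVars false

open WeierstrassCurve Filter Topology

namespace Pool.Agent.Y720.MZ

section one

variable {K : Type*} [Field K] [CharZero K] [DecidableEq K] {a b c e : K}
  {p : ℕ} [hp : Fact p.Prime] {σ : K →+* ℚ_[p]}

/-- the exact size of the p-power multiples -/
lemma Cu.pow_size (h : Cu (av σ) ‖(p : ℚ_[p])‖ a b c e) {R : Pt a b c} (hR : av σ (Te e R) = 1)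
    (k : ℕ) : av σ (Te e (p ^ k • R)) = ‖(p : ℚ_[p])‖ ^ k := by
  have hv := h.na
  have hε := h.ε0
  have hε1 := h.ε1
  have hpp : ∀ x : K, av σ ((p : K) * x) = ‖(p : ℚ_[p])‖ * av σ x := fun x => by
    rw [map_mul, av_p]
  -- the first step
  have h1 : av σ (Te e (p • R)) = ‖(p : ℚ_[p])‖ := by
    have b1 := h.mul_sub R p
    rw [hR, mul_one, mul_one] at b1
    have b2 : av σ (Te e (p • R)) ≤ ‖(p : ℚ_[p])‖ := by
      rw [show Te e (p • R) = (Te e (p • R) - p * Te e R) + p * Te e R by ring]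
      refine na_add hv b1 ?_
      rw [hpp, hR, mul_one]
    have b3 := h.mul_log R p
    have b4 : av σ (Lo a b c e (p • R) - Te e (p • R)) ≤ ‖(p : ℚ_[p])‖ * ‖(p : ℚ_[p])‖ := by
      refine h.log_sub (p • R) ?_
      calc av σ (Te e (p • R)) ^ 3 ≤ ‖(p : ℚ_[p])‖ ^ 3 := by
            have := (av σ).nonneg (Te e (p • R))
            gcongr
        _ ≤ ‖(p : ℚ_[p])‖ ^ 1 := pow_le_pow_of_le_one hε.le hε1.le (by norm_num)
        _ = ‖(p : ℚ_[p])‖ := pow_one _
    have b5 : av σ (Lo a b c e R - Te e R) ≤ ‖(p : ℚ_[p])‖ * 1 := by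
      refine h.log_sub R ?_
      rw [hR, one_pow]
    have b6 : av σ (Te e (p • R) - p * Te e R) ≤ ‖(p : ℚ_[p])‖ ^ 2 := by
      have e1 : Te e (p • R) - p * Te e R = (Lo a b c e (p • R) - p * Lo a b c e R) -
        (Lo a b c e (p • R) - Te e (p • R)) + p * (Lo a b c e R - Te e R) := by ring
      rw [e1]
      refine na_add hv (na_sub hv b3 (by rw [sq]; exact b4)) ?_
      rw [hpp, sq]
      rw [mul_one] at b5
      gcongr
    have e2 : Te e (p • R) = p * Te e R + (Te e (p • R) - p * Te e R) := by ring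
    rw [e2, na_eq hv, hpp, hR, mul_one]
    rw [hpp, hR, mul_one]
    refine b6.trans_lt ?_
    nlinarith
  have h2 : ∀ P : Pt a b c, av σ (Te e P) ≤ ‖(p : ℚ_[p])‖ → 0 < av σ (Te e P) →
      av σ (Te e (p • P)) = ‖(p : ℚ_[p])‖ * av σ (Te e P) := by
    intro P hP hP0
    have b1 := h.mul_sub P p
    have e2 : Te e (p • P) = p * Te e P + (Te e (p • P) - p * Te e P) := by ring
    rw [e2, na_eq hv, hpp]
    rw [hpp]
    refine b1.trans_lt ?_
    have : av σ (Te e P) * av σ (Te e P) < 1 * av σ (Te e P) :=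
      mul_lt_mul_of_pos_right (hP.trans_lt hε1) hP0
    nlinarith
  induction k with
  | zero => rw [pow_zero, one_smul, pow_zero]; exact hR
  | succ k ih =>
    rcases k with _ | k
    · rw [zero_add, pow_one, pow_one]; exact h1
    · rw [pow_succ', mul_smul, h2 _ _ _, ih, pow_succ' _ (k + 1)]
      · rw [ih]
        calc ‖(p : ℚ_[p])‖ ^ (k + 1) ≤ ‖(p : ℚ_[p])‖ ^ 1 :=
              pow_le_pow_of_le_one hε.le hε1.le (by omega)
          _ = _ := pow_one _
      · rw [ih]; positivity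

/-- **The multiples fill the unit ball.** -/
lemma Cu.fill1 (h : Cu (av σ) ‖(p : ℚ_[p])‖ a b c e) {R : Pt a b c} (hR : av σ (Te e R) = 1)
    {ξ : ℚ_[p]} (hξ : ‖ξ‖ ≤ 1) (j : ℕ) :
    ∃ n : ℕ, ‖σ (Te e (n • R)) - ξ‖ ≤ ‖(p : ℚ_[p])‖ ^ j := by
  have hp0 : 0 < ‖(p : ℚ_[p])‖ := norm_p_pos
  have hp1 : ‖(p : ℚ_[p])‖ < 1 := norm_p_lt
  induction j with
  | zero =>
    refine ⟨0, ?_⟩
    rw [zero_smul, Te_zero, map_zero, zero_sub, norm_neg, pow_zero]
    exact hξ
  | succ j ih =>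
    obtain ⟨n, hn⟩ := ih
    set Q := p ^ j • R with hQ
    set s := ‖(p : ℚ_[p])‖ ^ j with hs
    have hs0 : 0 < s := by positivity
    have hQs : av σ (Te e Q) = s := h.pow_size hR j
    have hs1 : s ≤ 1 := by rw [← hQs]; exact h.Te_le Q
    have hQ0 : σ (Te e Q) ≠ 0 := by
      intro h0
      rw [av_apply, h0, norm_zero] at hQs
      exact hs0.ne hQs
    obtain ⟨m, hm⟩ := near_nat ((ξ - σ (Te e (n • R))) / σ (Te e Q)) (by
      rw [norm_div, ← av_apply σ (Te e Q), hQs, div_le_one hs0, norm_sub_rev]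
      exact hn)
    refine ⟨n + m * p ^ j, ?_⟩
    have e0 : (n + m * p ^ j) • R = n • R + m • Q := by
      rw [add_smul, mul_smul]
    have h1 := (h.add (n • R) (m • Q)).1
    have h2 := h.mul_sub Q m
    rw [e0]
    have e1 : σ (Te e (n • R + m • Q)) - ξ =
        σ (Te e (n • R + m • Q) - Te e (n • R) - Te e (m • Q)) + (σ (Te e (m • Q) - m * Te e Q) +
        -(σ (Te e Q) * ((ξ - σ (Te e (n • R))) / σ (Te e Q) - m))) := by
      simp only [map_sub, map_mul, map_natCast]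
      field_simp
      ring_nf
    have b1 : ‖σ (Te e (n • R + m • Q) - Te e (n • R) - Te e (m • Q))‖ ≤ ‖(p : ℚ_[p])‖ * s := by
      refine h1.trans ?_
      have k1 := h.Te_le (n • R)
      have k2 := (h.mul_le Q m).trans_eq hQs
      have k3 := (av σ).nonneg (Te e (n • R))
      have k4 := (av σ).nonneg (Te e (m • Q))
      calc ‖(p : ℚ_[p])‖ * (av σ (Te e (n • R)) * av σ (Te e (m • Q))) ≤
            ‖(p : ℚ_[p])‖ * (1 * s) := by gcongr
        _ = ‖(p : ℚ_[p])‖ * s := by rw [one_mul]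
    have b2 : ‖σ (Te e (m • Q) - m * Te e Q)‖ ≤ ‖(p : ℚ_[p])‖ * s := by
      refine h2.trans ?_
      rw [hQs]
      gcongr
      nlinarith
    have b3 : ‖-(σ (Te e Q) * ((ξ - σ (Te e (n • R))) / σ (Te e Q) - m))‖ ≤
        ‖(p : ℚ_[p])‖ * s := by
      rw [norm_neg, norm_mul, ← av_apply σ (Te e Q), hQs, mul_comm]
      gcongr
    rw [e1, pow_succ']
    exact (Padic.nonarchimedean _ _).trans (max_le b1
      ((Padic.nonarchimedean _ _).trans (max_le b2 b3)))

/-- congruent multiples are close -/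
lemma Cu.cong (h : Cu (av σ) ‖(p : ℚ_[p])‖ a b c e) {R : Pt a b c} (hR : av σ (Te e R) = 1)
    (j : ℕ) {m n k : ℤ} (hn : n = m + k * (p : ℤ) ^ j) :
    ‖σ (Te e (n • R)) - σ (Te e (m • R))‖ ≤ ‖(p : ℚ_[p])‖ ^ j := by
  have hp0 : 0 < ‖(p : ℚ_[p])‖ := norm_p_pos
  have hp1 : ‖(p : ℚ_[p])‖ < 1 := norm_p_lt
  set Q := p ^ j • R with hQ
  set s := ‖(p : ℚ_[p])‖ ^ j with hs
  have hs0 : 0 < s := by positivity
  have hQs : av σ (Te e Q) = s := h.pow_size hR j
  have e0 : n • R = m • R + k • Q := by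
    rw [hn, add_smul, mul_smul, hQ]
    congr 2
  have h1 := (h.add (m • R) (k • Q)).1
  rw [e0]
  have e1 : σ (Te e (m • R + k • Q)) - σ (Te e (m • R)) =
      σ (Te e (m • R + k • Q) - Te e (m • R) - Te e (k • Q)) + σ (Te e (k • Q)) := by
    simp only [map_sub]; ring
  rw [e1]
  have k2 := (h.mulz_le Q k).trans_eq hQs
  refine (Padic.nonarchimedean _ _).trans (max_le (h1.trans ?_) k2)
  have k1 := h.Te_le (m • R)
  have k3 := (av σ).nonneg (Te e (m • R))
  have k4 := (av σ).nonneg (Te e (k • Q))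
  calc ‖(p : ℚ_[p])‖ * (av σ (Te e (m • R)) * av σ (Te e (k • Q))) ≤ 1 * (1 * s) := by gcongr
    _ = s := by ring

end one

section many

variable {K : Type*} [Field K] [CharZero K] [DecidableEq K] {a b c : K}
  {ι : Type*} [Fintype ι] {p : ι → ℕ} [hp : ∀ i, Fact (p i).Prime]
  {σ : ∀ i, K →+* ℚ_[p i]} {e : ι → K}

/-- **Simultaneous filling of the unit balls.** -/
theorem Cu.fill (hinj : Function.Injective p)
    (h : ∀ i, Cu (av (σ i)) ‖(p i : ℚ_[p i])‖ a b c (e i)) {R : Pt a b c}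
    (hR : ∀ i, av (σ i) (Te (e i) R) = 1) (ξ : ∀ i, ℚ_[p i]) (hξ : ∀ i, ‖ξ i‖ ≤ 1) {η : ℝ}
    (hη : 0 < η) : ∃ n : ℤ, ∀ i, ‖σ i (Te (e i) (n • R)) - ξ i‖ < η := by
  classical
  obtain ⟨J, hJ⟩ : ∃ J : ℕ, ∀ i, ‖(p i : ℚ_[p i])‖ ^ J < η := by
    have h1 : ∀ᶠ J : ℕ in atTop, ∀ i, ‖(p i : ℚ_[p i])‖ ^ J < η := by
      rw [Filter.eventually_all]
      intro i
      have h2 := (tendsto_pow_atTop_nhds_zero_of_lt_one (norm_nonneg _)
        (norm_p_lt (p := p i)))
      exact h2.eventually_lt_const hη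
    exact h1.exists
  choose nn hnn using fun i => (h i).fill1 (hR i) (hξ i) J
  obtain ⟨n0, hn0⟩ := Nat.chineseRemainderOfFinset nn (fun i => p i ^ J) Finset.univ
    (fun i _ => pow_ne_zero _ (hp i).out.ne_zero) (by
      intro i _ j _ hij
      exact Nat.Coprime.pow _ _ ((Nat.coprime_primes (hp i).out (hp j).out).2 fun h =>
        hij (hinj h)))
  refine ⟨(n0 : ℤ), fun i => ?_⟩
  obtain ⟨k, hk⟩ : ∃ k : ℤ, (n0 : ℤ) = (nn i : ℤ) + k * (p i : ℤ) ^ J := by
    have h1 : ((p i : ℤ) ^ J) ∣ (n0 : ℤ) - nn i := by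
      have := (Nat.modEq_iff_dvd.1 (hn0 i (Finset.mem_univ i)).symm)
      push_cast at this
      exact this
    obtain ⟨k1, hk1⟩ := h1
    refine ⟨k1, ?_⟩
    linear_combination hk1
  have h3 := (h i).cong (hR i) J hk
  have e1 : σ i (Te (e i) ((n0 : ℤ) • R)) - ξ i =
      (σ i (Te (e i) ((n0 : ℤ) • R)) - σ i (Te (e i) (nn i • R))) +
      (σ i (Te (e i) (nn i • R)) - ξ i) := by ring
  rw [e1]
  rw [natCast_zsmul (n := nn i)] at h3
  exact (Padic.nonarchimedean _ _).trans_lt (max_lt (h3.trans_lt (hJ i))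
    ((hnn i).trans_lt (hJ i)))

end many

end Pool.Agent.Y720.MZ
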