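import Pool.Agent.Y720.WD.Mov

/-!
# Every local point is reached (helper720)
-/

set_option autoImplicit false
set_option linter.unusedVariables false
set_option linter.unusedSectionVars false

open WeierstrassCurve Filter Topology

namespace Pool.Agent.Y720.MZ

section res

variable {q : ℕ} [hq : Fact q.Prime] {c h : Fin 5 → Fin 5 → ℤ} {ν b : ℤ}

lemma G4.nz (H : G4 q c h ν b) {n : ℕ} (h0 : n ≠ 0) (h1 : n < 11) : (n : ZMod q) ≠ 0 := by
  intro h2
  rw [ZMod.natCast_eq_zero_iff] at h2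
  have := Nat.le_of_dvd (Nat.pos_of_ne_zero h0) h2
  have := H.h11
  omega

/-- the two differences -/
noncomputable def G4.u (H : G4 q c h ν b) (s : ZMod q) : ZMod q := ν * b / (s ^ 2 - ν)

lemma G4.den (H : G4 q c h ν b) (s : ZMod q) : s ^ 2 - (ν : ZMod q) ≠ 0 := by
  intro h0
  apply H.hν
  rw [← sub_eq_zero.1 h0]
  exact ⟨s, sq s⟩

lemma G4.join (H : G4 q c h ν b) {s : ZMod q} (hs : s ≠ 0) {X Y : ℤ_[q]}
    (hXY : PadicInt.toZMod X - PadicInt.toZMod Y = H.u s) :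
    ∃ W : ℤ_[q], W ^ 2 = F4 c X Y ∧ ‖W‖ = 1 := by
  have hd := H.den s
  have h2 : (2 : ZMod q) ≠ 0 := by
    have := H.nz (n := 2) (by norm_num) (by norm_num)
    exact_mod_cast this
  have hu : H.u s * (s ^ 2 - ν) = ν * b := div_mul_cancel₀ _ hd
  have hu0 : H.u s ≠ 0 := div_ne_zero (mul_ne_zero H.hν0 H.hb) hd
  refine unit_sq h2 (t := H.u s ^ 2 * s) (mul_ne_zero (pow_ne_zero 2 hu0) hs) ?_
  rw [F4_split H.hc, map_add, map_mul _ (q : ℤ_[q]), toZ_p, zero_mul, add_zero]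
  simp only [map_mul, map_pow, map_sub, map_add, map_intCast]
  rw [hXY]
  linear_combination (-(H.u s) ^ 3) * hu

end res

variable {K : Type*} [Field K] [CharZero K] {ι : Type*} [Fintype ι] {p : ι → ℕ}
  [hp : ∀ i, Fact (p i).Prime] {σ : ∀ i, K →+* ℚ_[p i]}
  {c : Fin 5 → Fin 5 → ℤ} {h : ι → Fin 5 → Fin 5 → ℤ} {ν b : ι → ℤ}

/-- one step -/
lemma FX.step [Nonempty ι] (hinj : Function.Injective p) (H : ∀ i, G4 (p i) c (h i) (ν i) (b i))
    {X X' : ∀ i, ℤ_[p i]} (hX : FX σ c X)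
    (h' : ∀ i, PadicInt.toZMod (X' i) = PadicInt.toZMod (X i) ∨
      PadicInt.toZMod (X' i) = PadicInt.toZMod (X i) + ((H i).u 2 - (H i).u 1)) : FX σ c X' := by
  have h2 : ∀ i, (2 : ZMod (p i)) ≠ 0 := fun i => by
    have := (H i).nz (n := 2) (by norm_num) (by norm_num)
    exact_mod_cast this
  choose Y hY using fun i => lift_red (PadicInt.toZMod (X i) - (H i).u 1)
  have j1 : Jo c X Y := fun i => (H i).join one_ne_zero (by rw [hY]; ring)
  have j2 : Jo c X' Y := by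
    intro i
    rcases h' i with e | e
    · exact (H i).join one_ne_zero (by rw [e, hY]; ring)
    · exact (H i).join (h2 i) (by rw [e, hY]; ring)
  exact FY.toFX hinj H (FX.toFY hinj H hX j1) j2

/-- many steps -/
lemma FX.steps [Nonempty ι] (hinj : Function.Injective p) (H : ∀ i, G4 (p i) c (h i) (ν i) (b i))
    {X : ∀ i, ℤ_[p i]} (hX : FX σ c X) (n : ℕ) : ∀ X' : ∀ i, ℤ_[p i],
      (∀ i, ∃ m : ℕ, m ≤ n ∧ PadicInt.toZMod (X' i) = PadicInt.toZMod (X i) +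
        m * ((H i).u 2 - (H i).u 1)) → FX σ c X' := by
  induction n with
  | zero =>
    intro X' h'
    refine FX.step hinj H hX fun i => Or.inl ?_
    obtain ⟨m, hm, e⟩ := h' i
    rw [e, Nat.le_zero.1 hm, Nat.cast_zero, zero_mul, add_zero]
  | succ n ih =>
    intro X' h'
    choose m hm e using h'
    choose X'' hX'' using fun i => lift_red (PadicInt.toZMod (X i) +
      ((min (m i) n : ℕ) : ZMod (p i)) * ((H i).u 2 - (H i).u 1))
    refine FX.step hinj H (ih X'' fun i => ⟨min (m i) n, min_le_right _ _, hX'' i⟩) fun i => ?_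
    rcases Nat.lt_or_ge n (m i) with hlt | hge
    · right
      have h1 : m i = n + 1 := le_antisymm (hm i) hlt
      rw [e, hX'', min_eq_right hlt.le, h1]
      push_cast
      ring
    · left
      rw [e, hX'', min_eq_left hge]

/-- **All the first coordinates are reached.** -/
lemma FX.all [Nonempty ι] (hinj : Function.Injective p) (H : ∀ i, G4 (p i) c (h i) (ν i) (b i))
    {X : ∀ i, ℤ_[p i]} (hX : FX σ c X) (X' : ∀ i, ℤ_[p i]) : FX σ c X' := by
  have hΔ : ∀ i, (H i).u 2 - (H i).u 1 ≠ 0 := by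
    intro i h0
    have d1 := (H i).den 1
    have d2 := (H i).den 2
    have e1 : (H i).u 1 * (1 ^ 2 - (ν i : ZMod (p i))) = ν i * b i := div_mul_cancel₀ _ d1
    have e2 : (H i).u 2 * (2 ^ 2 - (ν i : ZMod (p i))) = ν i * b i := div_mul_cancel₀ _ d2
    have h1 : (H i).u 2 = (H i).u 1 := sub_eq_zero.1 h0
    rw [h1] at e2
    have h3 : (H i).u 1 * 3 = 0 := by linear_combination e2 - e1
    have hu0 : (H i).u 1 ≠ 0 := div_ne_zero (mul_ne_zero (H i).hν0 (H i).hb) d1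
    have n3 := (H i).nz (n := 3) (by norm_num) (by norm_num)
    rcases mul_eq_zero.1 h3 with h3 | h3
    · exact hu0 h3
    · exact n3 (by exact_mod_cast h3)
  obtain ⟨n, hn⟩ : ∃ n : ℕ, ∀ i, ((PadicInt.toZMod (X' i) - PadicInt.toZMod (X i)) /
      ((H i).u 2 - (H i).u 1)).val ≤ n := by
    refine ⟨Finset.univ.sup fun i => ((PadicInt.toZMod (X' i) - PadicInt.toZMod (X i)) /
      ((H i).u 2 - (H i).u 1)).val, fun i => ?_⟩
    exact Finset.le_sup (f := fun i => ((PadicInt.toZMod (X' i) - PadicInt.toZMod (X i)) /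
      ((H i).u 2 - (H i).u 1)).val) (Finset.mem_univ i)
  refine FX.steps hinj H hX n X' fun i => ⟨_, hn i, ?_⟩
  rw [ZMod.natCast_zmod_val, div_mul_cancel₀ _ (hΔ i)]
  ring

/-- points with zero ordinate are limits of points with nonzero ordinate -/
lemma G4.near {q : ℕ} [hq : Fact q.Prime] {c h : Fin 5 → Fin 5 → ℤ} {ν b : ℤ} (H : G4 q c h ν b)
    {X Y W : ℚ_[q]} (hw : W ^ 2 = F4 c X Y) {η : ℝ} (hη : 0 < η) :
    ∃ Y' W' : ℚ_[q], W' ≠ 0 ∧ W' ^ 2 = F4 c X Y' ∧ ‖Y' - Y‖ < η ∧ ‖W' - W‖ < η := by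
  by_cases hW : W = 0
  · subst hW
    obtain ⟨X0, Y0, W0, rfl, rfl, e3, e4, e5⟩ := H.int hw
    have hW0 : W0 = 0 := by
      have : ((W0 : ℤ_[q]) : ℚ_[q]) = ((0 : ℤ_[q]) : ℚ_[q]) := by rw [← e3]; rfl
      exact PadicInt.ext this
    -- the derivative is a unit
    have hq0 : ((tq c X0 Y0 0 : ℤ_[q]) : ℚ_[q]) ≠ 0 := by
      apply ne_of_one
      rw [← red_one]
      obtain ⟨q0, -, -, -⟩ := tq_split H.hc X0 Y0
      rw [hW0, F4_split H.hc] at e4
      have e6 := congrArg PadicInt.toZMod e4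
      rw [map_add, map_mul _ (q : ℤ_[q]), toZ_p, zero_mul, add_zero] at e6
      simp only [map_mul, map_pow, map_sub, map_add, map_intCast, map_zero] at e6
      rw [q0, map_add, map_mul _ (q : ℤ_[q]), toZ_p, zero_mul, add_zero]
      simp only [map_mul, map_pow, map_sub, map_intCast, map_neg, map_ofNat]
      have hu : PadicInt.toZMod X0 - PadicInt.toZMod Y0 ≠ 0 := by
        rw [← map_sub]; exact red_one.2 e5
      set u := PadicInt.toZMod X0 - PadicInt.toZMod Y0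
      have hub : u + b = 0 := by
        have h1 : (ν : ZMod q) * u ^ 3 * (u + b) = 0 := by rw [← e6]; ring
        exact (mul_eq_zero.1 h1).resolve_left (mul_ne_zero H.hν0 (pow_ne_zero 3 hu))
      have h1 : (ν : ZMod q) * (-4 * u ^ 3 - 3 * b * u ^ 2) = ν * (-(u ^ 3)) := by
        linear_combination (-3 * (ν : ZMod q) * u ^ 2) * hub
      rw [h1]
      exact mul_ne_zero H.hν0 (neg_ne_zero.2 (pow_ne_zero 3 hu))
    set g : ℚ_[q] → ℚ_[q] := qv (0 : ℚ_[q]) (tq c (X0 : ℚ_[q]) (Y0 : ℚ_[q])) with hg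
    have hgd : HasStrictDerivAt g (tq c (X0 : ℚ_[q]) (Y0 : ℚ_[q]) 0) 0 := by
      have h1 : HasStrictDerivAt (fun t : ℚ_[q] => t) 1 0 := hasStrictDerivAt_id 0
      have h2 := (((h1.const_mul (tq c (X0 : ℚ_[q]) (Y0 : ℚ_[q]) 0)).add
        ((h1.pow 2).const_mul (tq c (X0 : ℚ_[q]) (Y0 : ℚ_[q]) 1))).add
        ((h1.pow 3).const_mul (tq c (X0 : ℚ_[q]) (Y0 : ℚ_[q]) 2))).add
        ((h1.pow 4).const_mul (tq c (X0 : ℚ_[q]) (Y0 : ℚ_[q]) 3))
      have e1 : g = fun t : ℚ_[q] => tq c (X0 : ℚ_[q]) (Y0 : ℚ_[q]) 0 * t +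
          tq c (X0 : ℚ_[q]) (Y0 : ℚ_[q]) 1 * t ^ 2 + tq c (X0 : ℚ_[q]) (Y0 : ℚ_[q]) 2 * t ^ 3 +
          tq c (X0 : ℚ_[q]) (Y0 : ℚ_[q]) 3 * t ^ 4 := by
        funext t; rw [hg]; unfold qv; ring
      rw [e1]
      exact HasStrictDerivAt.congr_deriv h2 (by norm_num)
    have hq0' : tq c (X0 : ℚ_[q]) (Y0 : ℚ_[q]) 0 ≠ 0 := by rw [← tq_coe]; exact hq0
    have hmap := hgd.map_nhds_eq hq0'
    have hg0 : g 0 = 0 := by rw [hg]; unfold qv; ring
    have h3 : g '' Metric.ball (0 : ℚ_[q]) η ∈ 𝓝 (g 0) := by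
      rw [← hmap]
      exact Filter.image_mem_map (Metric.ball_mem_nhds (0 : ℚ_[q]) hη)
    rw [hg0] at h3
    obtain ⟨δ, hδ, hb⟩ := Metric.mem_nhds_iff.1 h3
    obtain ⟨J, hJ1, hJ2⟩ : ∃ J : ℕ, ‖(q : ℚ_[q])‖ ^ J < η ∧ ‖(q : ℚ_[q])‖ ^ J < min δ 1 := by
      have ht := tendsto_pow_atTop_nhds_zero_of_lt_one (norm_nonneg _) (norm_p_lt (p := q))
      exact ((ht.eventually_lt_const hη).and (ht.eventually_lt_const
        (lt_min hδ one_pos))).exists
    have hs : ((q : ℚ_[q]) ^ J) ^ 2 ∈ Metric.ball (0 : ℚ_[q]) δ := by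
      rw [mem_ball_zero_iff, norm_pow, norm_pow]
      have h4 := hJ2.trans_le (min_le_left _ _)
      have h5 := hJ2.trans_le (min_le_right _ _)
      have h6 : 0 ≤ ‖(q : ℚ_[q])‖ ^ J := by positivity
      nlinarith
    obtain ⟨t, ht1, ht2⟩ := hb hs
    refine ⟨(Y0 : ℚ_[q]) + t, (q : ℚ_[q]) ^ J, pow_ne_zero _ (by exact_mod_cast hq.out.ne_zero),
      ?_, ?_, ?_⟩
    · rw [← ht2, hg]
      exact qv_tq c (by rw [← F4_coe, ← e4, hW0]; simp) t
    · rw [add_sub_cancel_left]; exact mem_ball_zero_iff.1 ht1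
    · rw [sub_zero, norm_pow]; exact hJ1
  · exact ⟨Y, W, hW, hw, by rw [sub_self, norm_zero]; exact hη, by rw [sub_self, norm_zero]; exact hη⟩

/-- **The points over `K` are dense in the product of the sets of local points.** -/
theorem dense_all [Nonempty ι] (hinj : Function.Injective p)
    (H : ∀ i, G4 (p i) c (h i) (ν i) (b i)) {x₀ y₀ w₀ : K} (h0 : w₀ ^ 2 = F4 c x₀ y₀)
    (hw : ∀ i, ‖σ i w₀‖ = 1) {X Y W : ∀ i, ℚ_[p i]} (hX : ∀ i, W i ^ 2 = F4 c (X i) (Y i)) :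
    Clo σ c X Y W := by
  have hm : ∀ i, (σ i w₀) ^ 2 = F4 c (σ i x₀) (σ i y₀) := fun i => by
    rw [← map_pow, h0, map_F4]
  choose X0 Y0 W0 e1 e2 e3 e4 e5 using fun i => (H i).int (hm i)
  have hC : Clo σ c (fun i => (X0 i : ℚ_[p i])) (fun i => (Y0 i : ℚ_[p i])) (fun i => σ i w₀) := by
    intro η hη
    refine ⟨x₀, y₀, w₀, h0, fun i => ?_⟩
    dsimp only
    rw [e1, e2, sub_self, sub_self, sub_self, norm_zero]
    exact ⟨hη, hη, hη⟩
  have hF : FX σ c X0 := fun Y' W' h1 h2 => move_y hinj H hC hw h1 h2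
  intro η hη
  choose Y' W' k1 k2 k3 k4 using fun i => (H i).near (hX i) (half_pos hη)
  choose X1 Y1 W1 f1 f2 f3 f4 f5 using fun i => (H i).int (hX i)
  have hFX := FX.all hinj H hF X1
  obtain ⟨x, y, w, g1, g2⟩ := hFX Y' W' (fun i => by rw [k2, f1]) k1 (η / 2) (half_pos hη)
  refine ⟨x, y, w, g1, fun i => ⟨?_, ?_, ?_⟩⟩
  · rw [f1]
    have := (g2 i).1
    linarith
  · have h1 := (g2 i).2.1
    have h2 := k3 i
    have := norm_sub_le_norm_sub_add_norm_sub (σ i y) (Y' i) (Y i)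
    linarith
  · have h1 := (g2 i).2.2
    have h2 := k4 i
    have := norm_sub_le_norm_sub_add_norm_sub (σ i w) (W' i) (W i)
    linarith

end Pool.Agent.Y720.MZ
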