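import Pool.Agent.Y720.WD.Fib

/-!
# The double covers with cuspidal reduction (helper720)
-/

set_option autoImplicit false
set_option linter.unusedVariables false
set_option linter.unusedSectionVars false

open WeierstrassCurve Filter Topology

namespace Pool.Agent.Y720.MZ

section F4

/-- the polynomial of degree at most 4 in each variable with given coefficients -/
def F4 (c : Fin 5 → Fin 5 → ℤ) {R : Type*} [CommRing R] (x y : R) : R :=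
  ∑ i, ∑ j, (c i j : R) * x ^ (i : ℕ) * y ^ (j : ℕ)

lemma map_F4 (c : Fin 5 → Fin 5 → ℤ) {R S : Type*} [CommRing R] [CommRing S] (f : R →+* S)
    (x y : R) : f (F4 c x y) = F4 c (f x) (f y) := by
  simp [F4, map_sum]

/-- the coefficients of `ν (x - y) ^ 3 (x - y + b)` -/
def g4 (ν b : ℤ) : Fin 5 → Fin 5 → ℤ :=
  ![![0, 0, 0, -(ν * b), ν], ![0, 0, 3 * (ν * b), -4 * ν, 0], ![0, -3 * (ν * b), 6 * ν, 0, 0],
    ![ν * b, -4 * ν, 0, 0, 0], ![ν, 0, 0, 0, 0]]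

lemma F4_g4 (ν b : ℤ) {R : Type*} [CommRing R] (x y : R) :
    F4 (g4 ν b) x y = ν * (x - y) ^ 3 * (x - y + b) := by
  simp [F4, g4, Fin.sum_univ_five]
  ring

lemma F4_split {ν b : ℤ} {p : ℕ} {c h : Fin 5 → Fin 5 → ℤ} (hc : ∀ i j, c i j = g4 ν b i j + p * h i j)
    {R : Type*} [CommRing R] (x y : R) :
    F4 c x y = ν * (x - y) ^ 3 * (x - y + b) + p * F4 h x y := by
  rw [← F4_g4]
  unfold F4
  rw [Finset.mul_sum, ← Finset.sum_add_distrib]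
  refine Finset.sum_congr rfl fun i _ => ?_
  rw [Finset.mul_sum, ← Finset.sum_add_distrib]
  refine Finset.sum_congr rfl fun j _ => ?_
  rw [hc]; push_cast; ring

lemma F4_swap (c : Fin 5 → Fin 5 → ℤ) {R : Type*} [CommRing R] (x y : R) :
    F4 (fun i j => c j i) y x = F4 c x y := by
  unfold F4
  rw [Finset.sum_comm]
  refine Finset.sum_congr rfl fun i _ => Finset.sum_congr rfl fun j _ => ?_
  ring

lemma g4_swap (ν b : ℤ) (i j : Fin 5) : g4 ν b j i = g4 ν (-b) i j := by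
  fin_cases i <;> fin_cases j <;> simp [g4]

/-- the coefficients in the second variable -/
def cf (c : Fin 5 → Fin 5 → ℤ) {R : Type*} [CommRing R] (x : R) (j : Fin 5) : R :=
  ∑ i, (c i j : R) * x ^ (i : ℕ)

lemma F4_cf (c : Fin 5 → Fin 5 → ℤ) {R : Type*} [CommRing R] (x y : R) :
    F4 c x y = cf c x 0 + cf c x 1 * y + cf c x 2 * y ^ 2 + cf c x 3 * y ^ 3 + cf c x 4 * y ^ 4 := by
  simp only [F4, cf, Fin.sum_univ_five]
  simp
  ring

/-- the Taylor coefficients in the second variable -/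
def tq (c : Fin 5 → Fin 5 → ℤ) {R : Type*} [CommRing R] (x y : R) : Fin 4 → R :=
  ![cf c x 1 + 2 * cf c x 2 * y + 3 * cf c x 3 * y ^ 2 + 4 * cf c x 4 * y ^ 3,
    cf c x 2 + 3 * cf c x 3 * y + 6 * cf c x 4 * y ^ 2, cf c x 3 + 4 * cf c x 4 * y, cf c x 4]

lemma map_cf (c : Fin 5 → Fin 5 → ℤ) {R S : Type*} [CommRing R] [CommRing S] (f : R →+* S)
    (x : R) (j : Fin 5) : f (cf c x j) = cf c (f x) j := by
  simp [cf, map_sum]

lemma map_tq (c : Fin 5 → Fin 5 → ℤ) {R S : Type*} [CommRing R] [CommRing S] (f : R →+* S)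
    (x y : R) (j : Fin 4) : f (tq c x y j) = tq c (f x) (f y) j := by
  fin_cases j <;> simp [tq, map_cf, map_ofNat]

lemma qv_tq (c : Fin 5 → Fin 5 → ℤ) {R : Type*} [CommRing R] {x y w : R} (h : w ^ 2 = F4 c x y)
    (t : R) : qv w (tq c x y) t = F4 c x (y + t) := by
  rw [F4_cf] at h ⊢
  simp only [qv, tq]
  simp
  rw [h]
  ring

lemma cf_split {ν b : ℤ} {p : ℕ} {c h : Fin 5 → Fin 5 → ℤ} (hc : ∀ i j, c i j = g4 ν b i j + p * h i j)
    {R : Type*} [CommRing R] (x : R) (j : Fin 5) : cf c x j = cf (g4 ν b) x j + p * cf h x j := by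
  unfold cf
  rw [Finset.mul_sum, ← Finset.sum_add_distrib]
  refine Finset.sum_congr rfl fun i _ => ?_
  rw [hc]; push_cast; ring

lemma tq_split {ν b : ℤ} {p : ℕ} {c h : Fin 5 → Fin 5 → ℤ} (hc : ∀ i j, c i j = g4 ν b i j + p * h i j)
    {R : Type*} [CommRing R] (x y : R) :
    tq c x y 0 = ν * (-4 * (x - y) ^ 3 - 3 * b * (x - y) ^ 2) + p * tq h x y 0 ∧
    tq c x y 1 = ν * (6 * (x - y) ^ 2 + 3 * b * (x - y)) + p * tq h x y 1 ∧
    tq c x y 2 = ν * (-4 * (x - y) - b) + p * tq h x y 2 ∧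
    tq c x y 3 = ν + p * tq h x y 3 := by
  have e : ∀ j, cf (g4 ν b) x j = ∑ i, (g4 ν b i j : R) * x ^ (i : ℕ) := fun j => rfl
  have e0 := cf_split hc x 1
  have e1 := cf_split hc x 2
  have e2 := cf_split hc x 3
  have e3 := cf_split hc x 4
  rw [e] at e0 e1 e2 e3
  simp [g4, Fin.sum_univ_five] at e0 e1 e2 e3
  refine ⟨?_, ?_, ?_, ?_⟩ <;> simp only [tq] <;> simp <;> rw [e3]
  · rw [e0, e1, e2]; ring
  · rw [e1, e2]; ring
  · rw [e2]; ring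

lemma F4_taylor (c : Fin 5 → Fin 5 → ℤ) {R : Type*} [CommRing R] (x y : R) :
    F4 c x x = F4 c x y + tq c x y 0 * (x - y) + tq c x y 1 * (x - y) ^ 2 +
      tq c x y 2 * (x - y) ^ 3 + tq c x y 3 * (x - y) ^ 4 := by
  rw [F4_cf, F4_cf]
  simp only [tq]
  simp
  ring

end F4

section red

variable {p : ℕ} [hp : Fact p.Prime]

lemma red_zero {z : ℤ_[p]} : PadicInt.toZMod z = 0 ↔ ‖z‖ < 1 := by
  rw [← RingHom.mem_ker, PadicInt.ker_toZMod, IsLocalRing.mem_maximalIdeal, PadicInt.mem_nonunits]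

lemma red_one {z : ℤ_[p]} : PadicInt.toZMod z ≠ 0 ↔ ‖z‖ = 1 := by
  rw [Ne, red_zero, not_lt]
  exact ⟨fun h => le_antisymm (PadicInt.norm_le_one z) h, fun h => h.ge⟩

lemma coe_norm (z : ℤ_[p]) : ‖(z : ℚ_[p])‖ = ‖z‖ := by
  rw [PadicInt.norm_def]

lemma nat_one {n : ℕ} (h0 : n ≠ 0) (h : n < p) : ‖(n : ℚ_[p])‖ = 1 := by
  rw [Padic.norm_natCast_eq_one_iff]
  exact (Nat.Prime.coprime_iff_not_dvd hp.out).2 (Nat.not_dvd_of_pos_of_lt (Nat.pos_of_ne_zero h0) h)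

/-- a unit which is close to a square is congruent to a square -/
lemma sq_red {z : ℤ_[p]} {ν : ℤ} (h : PadicInt.toZMod (z ^ 2) = (ν : ZMod p)) :
    IsSquare (ν : ZMod p) := by
  rw [← h, map_pow]
  exact ⟨_, sq _⟩

end red

section alg5

variable {R : Type*} [CommRing R]

/-- the cubic form -/
def fC (a0 a1 a2 a3 a4 : R) : R := 27 * (a1 ^ 2 * a4 + a0 * a3 ^ 2 - 4 * a0 * a2 * a4) -
  9 * (a1 * a3 - 4 * a0 * a4) * a2 + 2 * a2 ^ 3

/-- its derivative -/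
def dC (a0 a1 a2 a3 a4 h0 h1 h2 h3 h4 : R) : R :=
  27 * (2 * a1 * h1 * a4 + a1 ^ 2 * h4 + h0 * a3 ^ 2 + 2 * a0 * a3 * h3 -
    4 * (h0 * a2 * a4 + a0 * h2 * a4 + a0 * a2 * h4)) -
  9 * ((h1 * a3 + a1 * h3 - 4 * h0 * a4 - 4 * a0 * h4) * a2 + (a1 * a3 - 4 * a0 * a4) * h2) +
  6 * a2 ^ 2 * h2

lemma fC_add (a0 a1 a2 a3 a4 h0 h1 h2 h3 h4 p : R) :
    fC (a0 + p * h0) (a1 + p * h1) (a2 + p * h2) (a3 + p * h3) (a4 + p * h4) =
      fC a0 a1 a2 a3 a4 + p * dC a0 a1 a2 a3 a4 h0 h1 h2 h3 h4 +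
      p ^ 2 * dC h0 h1 h2 h3 h4 a0 a1 a2 a3 a4 + p ^ 3 * fC h0 h1 h2 h3 h4 := by
  unfold fC dC; ring

lemma fC_g (ν b u : R) : fC (ν * u ^ 3 * (u + b)) (ν * (-4 * u ^ 3 - 3 * b * u ^ 2))
    (ν * (6 * u ^ 2 + 3 * b * u)) (ν * (-4 * u - b)) ν = 0 := by
  unfold fC; ring

lemma dC_g (ν b u h0 h1 h2 h3 h4 : R) : dC (ν * u ^ 3 * (u + b))
    (ν * (-4 * u ^ 3 - 3 * b * u ^ 2))
    (ν * (6 * u ^ 2 + 3 * b * u)) (ν * (-4 * u - b)) ν h0 h1 h2 h3 h4 =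
      27 * ν ^ 2 * b ^ 2 * (h0 + h1 * u + h2 * u ^ 2 + h3 * u ^ 3 + h4 * u ^ 4) := by
  unfold dC; ring

end alg5

end Pool.Agent.Y720.MZ
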