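import Pool.Agent.Y720.WD.Loc

/-!
# The local points of the double covers with cuspidal reduction (helper720)
-/

set_option autoImplicit false
set_option linter.unusedVariables false
set_option linter.unusedSectionVars false

open WeierstrassCurve Filter Topology

namespace Pool.Agent.Y720.MZ

variable {p : ℕ} [hp : Fact p.Prime]

/-- cuspidal reduction of type II in all the fibres -/
structure G4 (p : ℕ) (c h : Fin 5 → Fin 5 → ℤ) (ν b : ℤ) : Prop where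
  h11 : 11 ≤ p
  hc : ∀ i j, c i j = g4 ν b i j + p * h i j
  hν : ¬ IsSquare (ν : ZMod p)
  hb : (b : ZMod p) ≠ 0
  hd : ∀ k : ZMod p, F4 h k k ≠ 0
  ht : (h 4 4 : ZMod p) ≠ 0

variable {c h : Fin 5 → Fin 5 → ℤ} {ν b : ℤ}

lemma G4.swap (H : G4 p c h ν b) : G4 p (fun i j => c j i) (fun i j => h j i) ν (-b) where
  h11 := H.h11
  hc := fun i j => by rw [H.hc, g4_swap]
  hν := H.hν
  hb := by push_cast; exact neg_ne_zero.2 H.hb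
  hd := fun k => by rw [F4_swap]; exact H.hd k
  ht := H.ht

lemma G4.hν0 (H : G4 p c h ν b) : (ν : ZMod p) ≠ 0 := by
  intro h0
  exact H.hν (by rw [h0]; exact IsSquare.zero)

lemma G4.red (H : G4 p c h ν b) (i j : Fin 5) : (c i j : ZMod p) = (g4 ν b i j : ZMod p) := by
  rw [H.hc]; push_cast; rw [CharP.cast_eq_zero, zero_mul, add_zero]

lemma toZ_p : PadicInt.toZMod (p : ℤ_[p]) = 0 := by
  rw [map_natCast, CharP.cast_eq_zero]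

lemma nsq_p {z : ℚ_[p]} {a : ℤ_[p]} (h : z ^ 2 = ((p * a : ℤ_[p]) : ℚ_[p]))
    (ha : PadicInt.toZMod a ≠ 0) : False := by
  apply padic_nsq z
  rw [← norm_pow, h, coe_norm, norm_mul, red_one.1 ha, mul_one, PadicInt.norm_p, Padic.norm_p]

lemma int_of_sq {z : ℚ_[p]} {a : ℤ_[p]} (h : z ^ 2 = (a : ℚ_[p])) :
    ∃ W : ℤ_[p], z = (W : ℚ_[p]) ∧ W ^ 2 = a := by
  have h1 : ‖z‖ ^ 2 ≤ 1 := by
    rw [← norm_pow, h, coe_norm]; exact PadicInt.norm_le_one a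
  have h2 : ‖z‖ ≤ 1 := by
    by_contra hcon
    push Not at hcon
    have := one_lt_pow₀ hcon two_ne_zero
    linarith
  refine ⟨⟨z, h2⟩, rfl, ?_⟩
  exact PadicInt.ext h

lemma F4_coe (c : Fin 5 → Fin 5 → ℤ) (x y : ℤ_[p]) :
    ((F4 c x y : ℤ_[p]) : ℚ_[p]) = F4 c (x : ℚ_[p]) (y : ℚ_[p]) :=
  map_F4 c (PadicInt.Coe.ringHom (p := p)) x y

lemma tq_coe (c : Fin 5 → Fin 5 → ℤ) (x y : ℤ_[p]) (j : Fin 4) :
    ((tq c x y j : ℤ_[p]) : ℚ_[p]) = tq c (x : ℚ_[p]) (y : ℚ_[p]) j :=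
  map_tq c (PadicInt.Coe.ringHom (p := p)) x y j

lemma F4_rev1 (c : Fin 5 → Fin 5 → ℤ) {R : Type*} [CommRing R] {x ξ : R} (y : R) (h : ξ * x = 1) :
    F4 (fun i j => c (Fin.rev i) j) ξ y = ξ ^ 4 * F4 c x y := by
  have e : ∀ n : ℕ, ξ ^ n * x ^ n = 1 := fun n => by rw [← mul_pow, h, one_pow]
  have e1 := e 1
  have e2 := e 2
  have e3 := e 3
  have e4 := e 4
  simp only [F4, Fin.sum_univ_five]
  have r0 : Fin.rev (0 : Fin 5) = 4 := rfl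
  have r1 : Fin.rev (1 : Fin 5) = 3 := rfl
  have r2 : Fin.rev (2 : Fin 5) = 2 := rfl
  have r3 : Fin.rev (3 : Fin 5) = 1 := rfl
  have r4 : Fin.rev (4 : Fin 5) = 0 := rfl
  simp only [r0, r1, r2, r3, r4]
  simp only [Fin.val_zero, Fin.val_one, Fin.val_two, show ((3 : Fin 5) : ℕ) = 3 from rfl,
    show ((4 : Fin 5) : ℕ) = 4 from rfl, pow_zero, mul_one, pow_one]
  set A0 := (c 0 0 : R) + c 0 1 * y + c 0 2 * y ^ 2 + c 0 3 * y ^ 3 + c 0 4 * y ^ 4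
  set A1 := (c 1 0 : R) + c 1 1 * y + c 1 2 * y ^ 2 + c 1 3 * y ^ 3 + c 1 4 * y ^ 4
  set A2 := (c 2 0 : R) + c 2 1 * y + c 2 2 * y ^ 2 + c 2 3 * y ^ 3 + c 2 4 * y ^ 4
  set A3 := (c 3 0 : R) + c 3 1 * y + c 3 2 * y ^ 2 + c 3 3 * y ^ 3 + c 3 4 * y ^ 4
  set A4 := (c 4 0 : R) + c 4 1 * y + c 4 2 * y ^ 2 + c 4 3 * y ^ 3 + c 4 4 * y ^ 4
  rw [pow_one, pow_one] at e1
  have k1 : ξ ^ 4 * x = ξ ^ 3 := by linear_combination ξ ^ 3 * e1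
  have k2 : ξ ^ 4 * x ^ 2 = ξ ^ 2 := by linear_combination ξ ^ 2 * e2
  have k3 : ξ ^ 4 * x ^ 3 = ξ := by linear_combination ξ * e3
  linear_combination (-A1) * k1 - A2 * k2 - A3 * k3 - A4 * e4

lemma F4_rev2 (c : Fin 5 → Fin 5 → ℤ) {R : Type*} [CommRing R] {y η : R} (x : R) (h : η * y = 1) :
    F4 (fun i j => c i (Fin.rev j)) x η = η ^ 4 * F4 c x y := by
  have h1 := F4_rev1 (fun i j => c j i) x h
  rw [F4_swap c x y] at h1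
  rw [← h1, ← F4_swap]

/-- **All the local points are integral.** -/
theorem G4.int (H : G4 p c h ν b) {x y w : ℚ_[p]} (hw : w ^ 2 = F4 c x y) :
    ∃ X Y W : ℤ_[p], x = X ∧ y = Y ∧ w = W ∧ W ^ 2 = F4 c X Y ∧ ‖X - Y‖ = 1 := by
  have hinv : ∀ x : ℚ_[p], ¬ ‖x‖ ≤ 1 → ∃ ξ : ℤ_[p], (ξ : ℚ_[p]) * x = 1 ∧
      PadicInt.toZMod ξ = 0 := by
    intro x hx
    push Not at hx
    have hx0 : x ≠ 0 := by
      rintro rfl
      rw [norm_zero] at hx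
      linarith
    have h1 : ‖x⁻¹‖ < 1 := by rw [norm_inv]; exact inv_lt_one_of_one_lt₀ hx
    let ξ : ℤ_[p] := ⟨x⁻¹, h1.le⟩
    have h2 : ‖ξ‖ < 1 := by rw [PadicInt.norm_def]; exact h1
    exact ⟨ξ, inv_mul_cancel₀ hx0, red_zero.2 h2⟩
  by_cases hx : ‖x‖ ≤ 1 <;> by_cases hy : ‖y‖ ≤ 1
  · -- integral coordinates
    obtain ⟨X, rfl⟩ : ∃ X : ℤ_[p], x = X := ⟨⟨x, hx⟩, rfl⟩
    obtain ⟨Y, rfl⟩ : ∃ Y : ℤ_[p], y = Y := ⟨⟨y, hy⟩, rfl⟩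
    rw [← F4_coe] at hw
    obtain ⟨W, rfl, hW⟩ := int_of_sq hw
    refine ⟨X, Y, W, rfl, rfl, rfl, hW, ?_⟩
    by_contra hcon
    have h1 : ‖X - Y‖ < 1 := lt_of_le_of_ne (PadicInt.norm_le_one _) hcon
    obtain ⟨δ, hδ⟩ := PadicInt.norm_lt_one_iff_dvd _ |>.1 h1
    rw [F4_split H.hc, hδ] at hw
    have key : (ν : ℤ_[p]) * ((p : ℤ_[p]) * δ) ^ 3 * ((p : ℤ_[p]) * δ + (b : ℤ_[p])) +
        (p : ℤ_[p]) * F4 h X Y = (p : ℤ_[p]) * (F4 h X Y + (p : ℤ_[p]) * ((p : ℤ_[p]) *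
        ((ν : ℤ_[p]) * δ ^ 3 * ((p : ℤ_[p]) * δ + (b : ℤ_[p]))))) := by ring
    rw [key] at hw
    refine nsq_p hw ?_
    · rw [map_add, map_mul, toZ_p, zero_mul, add_zero, map_F4]
      have e : PadicInt.toZMod Y = PadicInt.toZMod X := by
        have : PadicInt.toZMod (X - Y) = 0 := red_zero.2 h1
        rw [map_sub, sub_eq_zero] at this
        exact this.symm
      rw [e]
      exact H.hd _
  · exfalso
    obtain ⟨X, rfl⟩ : ∃ X : ℤ_[p], x = X := ⟨⟨x, hx⟩, rfl⟩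
    obtain ⟨η, h1, h2⟩ := hinv y hy
    have e1 : (w * (η : ℚ_[p]) ^ 2) ^ 2 = ((F4 (fun i j => c i (Fin.rev j)) X η : ℤ_[p]) : ℚ_[p]) := by
      rw [F4_coe, F4_rev2 c _ h1, ← hw]; ring
    obtain ⟨Z, -, hZ⟩ := int_of_sq e1
    apply H.hν
    refine sq_red (z := Z) ?_
    rw [hZ, map_F4, h2]
    have r : ∀ i : Fin 5, (c i 4 : ZMod p) = (g4 ν b i 4 : ZMod p) := fun i => H.red i 4
    simp only [F4, Fin.sum_univ_five]
    have r0 : Fin.rev (0 : Fin 5) = 4 := rfl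
    simp [r0, r, g4]
  · exfalso
    obtain ⟨Y, rfl⟩ : ∃ Y : ℤ_[p], y = Y := ⟨⟨y, hy⟩, rfl⟩
    obtain ⟨ξ, h1, h2⟩ := hinv x hx
    have e1 : (w * (ξ : ℚ_[p]) ^ 2) ^ 2 = ((F4 (fun i j => c (Fin.rev i) j) ξ Y : ℤ_[p]) : ℚ_[p]) := by
      rw [F4_coe, F4_rev1 c _ h1, ← hw]; ring
    obtain ⟨Z, -, hZ⟩ := int_of_sq e1
    apply H.hν
    refine sq_red (z := Z) ?_
    rw [hZ, map_F4, h2]
    have r : ∀ j : Fin 5, (c 4 j : ZMod p) = (g4 ν b 4 j : ZMod p) := fun j => H.red 4 j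
    simp only [F4, Fin.sum_univ_five]
    have r0 : Fin.rev (0 : Fin 5) = 4 := rfl
    simp [r0, r, g4]
  · exfalso
    obtain ⟨ξ, h1, h2⟩ := hinv x hx
    obtain ⟨η, h3, h4⟩ := hinv y hy
    have e1 : (w * (ξ : ℚ_[p]) ^ 2 * (η : ℚ_[p]) ^ 2) ^ 2 =
        ((F4 (fun i j => c (Fin.rev i) (Fin.rev j)) ξ η : ℤ_[p]) : ℚ_[p]) := by
      have g1 := F4_rev1 (fun i j => c i (Fin.rev j)) (η : ℚ_[p]) h1
      have g2 := F4_rev2 c x h3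
      rw [F4_coe, g1, g2, ← hw]; ring
    obtain ⟨s, hs⟩ := PadicInt.norm_lt_one_iff_dvd _ |>.1 (red_zero.1 h2)
    obtain ⟨t, ht⟩ := PadicInt.norm_lt_one_iff_dvd _ |>.1 (red_zero.1 h4)
    have e2 : F4 (fun i j => c (Fin.rev i) (Fin.rev j)) ξ η =
        (ν : ℤ_[p]) * (η - ξ) ^ 3 * (η - ξ + b * (ξ * η)) +
          p * F4 (fun i j => h (Fin.rev i) (Fin.rev j)) ξ η := by
      simp only [F4, Fin.sum_univ_five, H.hc]
      have r0 : Fin.rev (0 : Fin 5) = 4 := rfl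
      have r1 : Fin.rev (1 : Fin 5) = 3 := rfl
      have r2 : Fin.rev (2 : Fin 5) = 2 := rfl
      have r3 : Fin.rev (3 : Fin 5) = 1 := rfl
      have r4 : Fin.rev (4 : Fin 5) = 0 := rfl
      simp only [r0, r1, r2, r3, r4]
      simp [g4]
      ring
    have key : (ν : ℤ_[p]) * (η - ξ) ^ 3 * (η - ξ + (b : ℤ_[p]) * (ξ * η)) +
          (p : ℤ_[p]) * F4 (fun i j => h (Fin.rev i) (Fin.rev j)) ξ η =
        (p : ℤ_[p]) * (F4 (fun i j => h (Fin.rev i) (Fin.rev j)) ξ η +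
        (p : ℤ_[p]) * ((p : ℤ_[p]) ^ 2 * ((ν : ℤ_[p]) * (t - s) ^ 3 *
        (t - s + (b : ℤ_[p]) * (p : ℤ_[p]) * (s * t))))) := by
      generalize F4 (fun i j => h (Fin.rev i) (Fin.rev j)) ξ η = Z
      rw [hs, ht]; ring
    rw [e2, key] at e1
    refine nsq_p e1 ?_
    · rw [map_add, map_mul, toZ_p, zero_mul, add_zero, map_F4, h2, h4]
      simp only [F4, Fin.sum_univ_five]
      have r0 : Fin.rev (0 : Fin 5) = 4 := rfl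
      simp [r0]
      exact H.ht

/-- **The fibres.** -/
theorem G4.cu (H : G4 p c h ν b) {X Y W : ℤ_[p]} (hW : W ^ 2 = F4 c X Y) (hW1 : ‖W‖ = 1)
    (hXY : ‖X - Y‖ = 1) :
    Cu (av (RingHom.id ℚ_[p])) ‖(p : ℚ_[p])‖ ((tq c X Y 1 : ℤ_[p]) : ℚ_[p])
      ((rb W (tq c X Y 0) (tq c X Y 2) (tq c X Y 3) : ℤ_[p]) : ℚ_[p])
      ((rc W (tq c X Y 0) (tq c X Y 1) (tq c X Y 2) (tq c X Y 3) : ℤ_[p]) : ℚ_[p])
      (-((tq c X Y 1 : ℤ_[p]) : ℚ_[p]) / 3) ∧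
    ‖xs (W : ℚ_[p]) ((tq c X Y 0 : ℤ_[p]) : ℚ_[p]) ((tq c X Y 1 : ℤ_[p]) : ℚ_[p]) -
      (-((tq c X Y 1 : ℤ_[p]) : ℚ_[p]) / 3)‖ = 1 := by
  have h11 := H.h11
  obtain ⟨q0, q1, q2, q3⟩ := tq_split H.hc X Y
  have hT := F4_taylor h X Y
  rw [F4_split H.hc] at hW
  have hd := H.hd (PadicInt.toZMod X)
  rw [← map_F4] at hd
  set Q0 := tq c X Y 0
  set Q1 := tq c X Y 1
  set Q2 := tq c X Y 2
  set Q3 := tq c X Y 3
  set η0 := F4 h X Y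
  set η1 := tq h X Y 0
  set η2 := tq h X Y 1
  set η3 := tq h X Y 2
  set η4 := tq h X Y 3
  set U := X - Y
  have n2 : ‖(2 : ℚ_[p])‖ = 1 := by exact_mod_cast nat_one (p := p) (n := 2) (by norm_num) (by omega)
  have n3 : ‖(3 : ℚ_[p])‖ = 1 := by exact_mod_cast nat_one (p := p) (n := 3) (by norm_num) (by omega)
  have n5 : ‖(5 : ℚ_[p])‖ = 1 := by exact_mod_cast nat_one (p := p) (n := 5) (by norm_num) (by omega)
  have n7 : ‖(7 : ℚ_[p])‖ = 1 := by exact_mod_cast nat_one (p := p) (n := 7) (by norm_num) (by omega)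
  have c3 : (3 : ℚ_[p]) ≠ 0 := by norm_num
  have k2 : ((2 : ℤ_[p]) : ℚ_[p]) = 2 := map_ofNat (PadicInt.Coe.ringHom (p := p)) 2
  have k3 : ((3 : ℤ_[p]) : ℚ_[p]) = 3 := map_ofNat (PadicInt.Coe.ringHom (p := p)) 3
  have k4 : ((4 : ℤ_[p]) : ℚ_[p]) = 4 := map_ofNat (PadicInt.Coe.ringHom (p := p)) 4
  have k8 : ((8 : ℤ_[p]) : ℚ_[p]) = 8 := map_ofNat (PadicInt.Coe.ringHom (p := p)) 8
  have k9 : ((9 : ℤ_[p]) : ℚ_[p]) = 9 := map_ofNat (PadicInt.Coe.ringHom (p := p)) 9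
  have k27 : ((27 : ℤ_[p]) : ℚ_[p]) = 27 := map_ofNat (PadicInt.Coe.ringHom (p := p)) 27
  have m3 : (3 : ZMod p) ≠ 0 := by
    intro h0
    have h1 : ((3 : ℕ) : ZMod p) = 0 := by exact_mod_cast h0
    rw [ZMod.natCast_eq_zero_iff] at h1
    have := Nat.le_of_dvd (by norm_num) h1
    omega
  have uU : PadicInt.toZMod U ≠ 0 := red_one.2 hXY
  -- the three identities
  have i1 : fC (W ^ 2) Q0 Q1 Q2 Q3 = p * (27 * ν ^ 2 * b ^ 2 * F4 h X X +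
      p * (dC η0 η1 η2 η3 η4 (ν * U ^ 3 * (U + b)) (ν * (-4 * U ^ 3 - 3 * b * U ^ 2))
        (ν * (6 * U ^ 2 + 3 * b * U)) (ν * (-4 * U - b)) ν + p * fC η0 η1 η2 η3 η4)) := by
    rw [hW, q0, q1, q2, q3, fC_add, fC_g, dC_g, hT]
    ring
  have i2 : 3 * rb W Q0 Q2 Q3 - Q1 ^ 2 = p * (3 * (ν * (-4 * U ^ 3 - 3 * b * U ^ 2) * η3 +
      η1 * (ν * (-4 * U - b)) - 4 * (ν * U ^ 3 * (U + b)) * η4 - 4 * η0 * ν) -
      2 * (ν * (6 * U ^ 2 + 3 * b * U)) * η2 + p * (3 * (η1 * η3 - 4 * η0 * η4) - η2 ^ 2)) := by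
    rw [rb, hW, q0, q1, q2, q3]
    ring
  have i3 : 3 * Q0 ^ 2 - 8 * W ^ 2 * Q1 = 3 * ν ^ 2 * U ^ 4 * b ^ 2 +
      p * (6 * (ν * (-4 * U ^ 3 - 3 * b * U ^ 2)) * η1 + 3 * p * η1 ^ 2 -
        8 * ((ν * U ^ 3 * (U + b)) * η2 + η0 * (ν * (6 * U ^ 2 + 3 * b * U)) + p * (η0 * η2))) := by
    rw [hW, q0, q1]
    ring
  have u1 : ‖(27 * ν ^ 2 * b ^ 2 * F4 h X X +
      p * (dC η0 η1 η2 η3 η4 (ν * U ^ 3 * (U + b)) (ν * (-4 * U ^ 3 - 3 * b * U ^ 2))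
        (ν * (6 * U ^ 2 + 3 * b * U)) (ν * (-4 * U - b)) ν + p * fC η0 η1 η2 η3 η4) : ℤ_[p])‖ = 1 := by
    rw [← red_one, map_add, map_mul _ (p : ℤ_[p]), toZ_p, zero_mul, add_zero]
    simp only [map_mul, map_pow, map_intCast, map_ofNat]
    refine mul_ne_zero (mul_ne_zero (mul_ne_zero ?_ (pow_ne_zero 2 H.hν0))
      (pow_ne_zero 2 H.hb)) hd
    have : (27 : ZMod p) = 3 ^ 3 := by norm_num
    rw [this]
    exact pow_ne_zero 3 m3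
  have u3 : ‖(3 * ν ^ 2 * U ^ 4 * b ^ 2 +
      p * (6 * (ν * (-4 * U ^ 3 - 3 * b * U ^ 2)) * η1 + 3 * p * η1 ^ 2 -
        8 * ((ν * U ^ 3 * (U + b)) * η2 + η0 * (ν * (6 * U ^ 2 + 3 * b * U)) +
          p * (η0 * η2))) : ℤ_[p])‖ = 1 := by
    rw [← red_one, map_add, map_mul _ (p : ℤ_[p]), toZ_p, zero_mul, add_zero]
    simp only [map_mul, map_pow, map_intCast, map_ofNat]
    exact mul_ne_zero (mul_ne_zero (mul_ne_zero m3 (pow_ne_zero 2 H.hν0))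
      (pow_ne_zero 4 uU)) (pow_ne_zero 2 H.hb)
  have e27 : ‖(27 : ℚ_[p])‖ = 1 := by
    rw [show (27 : ℚ_[p]) = 3 ^ 3 by norm_num, norm_pow, n3, one_pow]
  have hWq : (W : ℚ_[p]) ≠ 0 := by
    intro h0
    rw [← coe_norm, h0, norm_zero] at hW1
    exact zero_ne_one hW1
  constructor
  · refine ⟨av_na' _, norm_p_pos, norm_p_lt, fun x hx => padic_disc x hx, fun x => padic_nsq x,
      ?_, ?_, ?_, ?_, ?_, ?_, ?_⟩
    · rw [av_apply, RingHom.id_apply]; exact n2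
    · rw [av_apply, RingHom.id_apply]; exact n3
    · rw [av_apply, RingHom.id_apply]; exact n5
    · rw [av_apply, RingHom.id_apply]; exact n7
    · have : sA (Q1 : ℚ_[p]) (-(Q1 : ℚ_[p]) / 3) = 0 := by unfold sA; field_simp; ring
      rw [this, map_zero]
      exact norm_nonneg _
    · rw [av_apply, RingHom.id_apply]
      have e1 : sB (Q1 : ℚ_[p]) ((rb W Q0 Q2 Q3 : ℤ_[p]) : ℚ_[p]) (-(Q1 : ℚ_[p]) / 3) =
          ((3 * rb W Q0 Q2 Q3 - Q1 ^ 2 : ℤ_[p]) : ℚ_[p]) / 3 := by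
        unfold sB; push_cast; simp only [k3]; field_simp; ring
      rw [e1, norm_div, n3, div_one, i2, coe_norm, norm_mul, PadicInt.norm_p, ← Padic.norm_p]
      exact mul_le_of_le_one_right (norm_nonneg _) (PadicInt.norm_le_one _)
    · rw [av_apply, RingHom.id_apply]
      have e1 : sC (Q1 : ℚ_[p]) ((rb W Q0 Q2 Q3 : ℤ_[p]) : ℚ_[p])
          ((rc W Q0 Q1 Q2 Q3 : ℤ_[p]) : ℚ_[p]) (-(Q1 : ℚ_[p]) / 3) =
          ((fC (W ^ 2) Q0 Q1 Q2 Q3 : ℤ_[p]) : ℚ_[p]) / 27 := by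
        unfold sC fC rb rc; push_cast; simp only [k2, k4, k9, k27]; field_simp; ring
      rw [e1, norm_div, e27, div_one, i1, coe_norm, norm_mul, u1, mul_one, PadicInt.norm_p,
        ← Padic.norm_p]
  · have e1 : 12 * (W : ℚ_[p]) ^ 2 * (xs (W : ℚ_[p]) (Q0 : ℚ_[p]) (Q1 : ℚ_[p]) -
        (-(Q1 : ℚ_[p]) / 3)) = ((3 * Q0 ^ 2 - 8 * W ^ 2 * Q1 : ℤ_[p]) : ℚ_[p]) := by
      unfold xs; push_cast; simp only [k3, k8]; field_simp; ring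
    have e2 := congrArg norm e1
    rw [i3, coe_norm, u3, norm_mul, norm_mul, norm_pow, coe_norm, hW1, one_pow, mul_one,
      show (12 : ℚ_[p]) = 2 ^ 2 * 3 by norm_num, norm_mul, norm_pow, n2, n3, one_pow, one_mul,
      one_mul] at e2
    exact e2

end Pool.Agent.Y720.MZ
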