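import Pool.Agent.Y720.WD.Loc2

/-!
# Moves along the fibres (helper720)
-/

set_option autoImplicit false
set_option linter.unusedVariables false
set_option linter.unusedSectionVars false

open WeierstrassCurve Filter Topology

namespace Pool.Agent.Y720.MZ

variable {K : Type*} [Field K] [CharZero K] {ι : Type*} [Fintype ι] {p : ι → ℕ}
  [hp : ∀ i, Fact (p i).Prime] {σ : ∀ i, K →+* ℚ_[p i]}

/-- the local point is a limit of points over `K` -/
def Clo (σ : ∀ i, K →+* ℚ_[p i]) (c : Fin 5 → Fin 5 → ℤ) (X Y W : ∀ i, ℚ_[p i]) : Prop :=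
  ∀ η : ℝ, 0 < η → ∃ x y w : K, w ^ 2 = F4 c x y ∧
    ∀ i, ‖σ i x - X i‖ < η ∧ ‖σ i y - Y i‖ < η ∧ ‖σ i w - W i‖ < η

lemma Clo.swap {c : Fin 5 → Fin 5 → ℤ} {X Y W : ∀ i, ℚ_[p i]} (h : Clo σ c X Y W) :
    Clo σ (fun i j => c j i) Y X W := by
  intro η hη
  obtain ⟨x, y, w, h1, h2⟩ := h η hη
  exact ⟨y, x, w, by rw [F4_swap]; exact h1, fun i => ⟨(h2 i).2.1, (h2 i).1, (h2 i).2.2⟩⟩

variable {c : Fin 5 → Fin 5 → ℤ} {h : ι → Fin 5 → Fin 5 → ℤ} {ν b : ι → ℤ}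

/-- **Moves in the direction of the second coordinate.** -/
theorem move_y [Nonempty ι] (hinj : Function.Injective p) (H : ∀ i, G4 (p i) c (h i) (ν i) (b i))
    {X Y W : ∀ i, ℚ_[p i]} (hC : Clo σ c X Y W) (hW : ∀ i, ‖W i‖ = 1) {Y' W' : ∀ i, ℚ_[p i]}
    (h' : ∀ i, W' i ^ 2 = F4 c (X i) (Y' i)) (hW' : ∀ i, W' i ≠ 0) : Clo σ c X Y' W' := by
  intro η hη
  -- the size of the neighbourhood
  have hδ : ∀ i, ∃ δ : ℝ, 0 < δ ∧ ∀ x : ℚ_[p i], ‖x - X i‖ < δ →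
      ∃ Z : ℚ_[p i], ‖Z - W' i‖ < min (η / 2) ‖W' i‖ ∧ Z ^ 2 = F4 c x (Y' i) := by
    intro i
    obtain ⟨δ, hδ, hs⟩ := exists_sqrt (hW' i) (ε := min (η / 2) ‖W' i‖)
      (lt_min (half_pos hη) (norm_pos_iff.2 (hW' i)))
    have hc : Continuous fun x : ℚ_[p i] => F4 c x (Y' i) := by unfold F4; fun_prop
    have h1 : ∀ᶠ x in 𝓝 (X i), ‖F4 c x (Y' i) - W' i ^ 2‖ < δ := by
      have h2 : Tendsto (fun x => ‖F4 c x (Y' i) - W' i ^ 2‖) (𝓝 (X i)) (𝓝 0) := by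
        have := ((hc.tendsto (X i)).sub_const (W' i ^ 2)).norm
        rwa [← h' i, sub_self, norm_zero] at this
      exact h2.eventually_lt_const hδ
    obtain ⟨δ', hδ', hb⟩ := Metric.eventually_nhds_iff_ball.1 h1
    exact ⟨δ', hδ', fun x hx => hs _ (hb x (mem_ball_iff_norm.2 hx))⟩
  choose δ hδ0 hδs using hδ
  obtain ⟨δ₀, hδ₀, hδ₀i⟩ := fin_min hδ0
  obtain ⟨x, y, w, hxy, hn⟩ := hC (min δ₀ (min η 1)) (lt_min hδ₀ (lt_min hη one_pos))
  have hw1 : ∀ i, ‖σ i w‖ = 1 := by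
    intro i
    have h1 := (hn i).2.2.trans_le ((min_le_right _ _).trans (min_le_right _ _))
    rw [← hW i]
    have e : σ i w = W i + (σ i w - W i) := by ring
    rw [e]
    exact na_eq (v := av (RingHom.id ℚ_[p i])) (av_na' _) (by
      rw [av_apply, av_apply, RingHom.id_apply, RingHom.id_apply, hW i]; exact h1)
  have hw0 : w ≠ 0 := by
    rintro rfl
    obtain ⟨i⟩ := ‹Nonempty ι›
    have := hw1 i
    rw [map_zero, norm_zero] at this
    exact zero_ne_one this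
  set θ : K × (Fin 4 → K) := (w, tq c x y) with hθ
  set e : K := -(tq c x y 1) / 3 with he
  have key : ∀ i, Cu (av (σ i)) ‖(p i : ℚ_[p i])‖ (tA θ) (tB θ) (tC θ) e ∧
      ‖σ i (tX θ - e)‖ = 1 := by
    intro i
    have hm : (σ i w) ^ 2 = F4 c (σ i x) (σ i y) := by rw [← map_pow, hxy, map_F4]
    obtain ⟨X0, Y0, W0, e1, e2, e3, e4, e5⟩ := (H i).int hm
    have hW0 : ‖W0‖ = 1 := by rw [← coe_norm, ← e3]; exact hw1 i
    obtain ⟨k1, k2⟩ := (H i).cu e4 hW0 e5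
    have q : ∀ j, ((tq c X0 Y0 j : ℤ_[p i]) : ℚ_[p i]) = σ i (tq c x y j) := by
      intro j
      rw [tq_coe, map_tq, e1, e2]
    have q3 : -((tq c X0 Y0 1 : ℤ_[p i]) : ℚ_[p i]) / 3 = σ i e := by
      rw [he, q]; simp [map_ofNat]
    have kb : ((rb W0 (tq c X0 Y0 0) (tq c X0 Y0 2) (tq c X0 Y0 3) : ℤ_[p i]) : ℚ_[p i]) =
        σ i (tB θ) := by
      have : tB θ = rb w (tq c x y 0) (tq c x y 2) (tq c x y 3) := rfl
      rw [this]
      unfold rb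
      have k4 : ((4 : ℤ_[p i]) : ℚ_[p i]) = 4 := map_ofNat (PadicInt.Coe.ringHom (p := p i)) 4
      push_cast
      simp only [k4, q, map_sub, map_mul, map_pow, map_ofNat, ← e3]
    have kc : ((rc W0 (tq c X0 Y0 0) (tq c X0 Y0 1) (tq c X0 Y0 2) (tq c X0 Y0 3) : ℤ_[p i]) :
        ℚ_[p i]) = σ i (tC θ) := by
      have : tC θ = rc w (tq c x y 0) (tq c x y 1) (tq c x y 2) (tq c x y 3) := rfl
      rw [this]
      unfold rc
      have k4 : ((4 : ℤ_[p i]) : ℚ_[p i]) = 4 := map_ofNat (PadicInt.Coe.ringHom (p := p i)) 4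
      push_cast
      simp only [k4, q, map_sub, map_add, map_mul, map_pow, map_ofNat, ← e3]
    rw [q3, q 1, kb, kc] at k1
    refine ⟨Cu.of_map (σ i) k1, ?_⟩
    rw [q3, q 1, q 0, ← e3] at k2
    have : tX θ = xs w (tq c x y 0) (tq c x y 1) := rfl
    rw [this, map_sub]
    have e6 : σ i (xs w (tq c x y 0) (tq c x y 1)) =
        xs (σ i w) (σ i (tq c x y 0)) (σ i (tq c x y 1)) := by simp [xs, map_ofNat]
    rw [e6]
    exact k2
  have hZ : ∀ i, ∃ Z : ℚ_[p i], ‖Z - W' i‖ < min (η / 2) ‖W' i‖ ∧ Z ^ 2 = F4 c (σ i x) (Y' i) :=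
    fun i => hδs i _ ((hn i).1.trans_le ((min_le_left _ _).trans (hδ₀i i)))
  choose Z hZ1 hZ2 using hZ
  have hZ0 : ∀ i, Z i ≠ 0 := by
    intro i h0
    have := (hZ1 i).trans_le (min_le_right _ _)
    rw [h0, zero_sub, norm_neg] at this
    exact lt_irrefl _ this
  obtain ⟨s, z, g1, g2⟩ := fib_core hinj (θ := θ) hw0 (e := fun _ => e) (fun i => (key i).1)
    (fun i => (key i).2) (t := fun i => Y' i - σ i y) (Y := Z) (fun i => by
      have e1 : (fun j => σ i (θ.2 j)) = tq c (σ i x) (σ i y) := by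
        funext j
        exact map_tq c (σ i) x y j
      rw [e1, qv_tq c (show (σ i θ.1) ^ 2 = F4 c (σ i x) (σ i y) by
        rw [← map_pow, ← map_F4]; exact congrArg _ hxy), hZ2]
      congr 1
      ring) hZ0 (half_pos hη)
  refine ⟨x, y + s, z, ?_, fun i => ⟨?_, ?_, ?_⟩⟩
  · rw [g1]
    exact qv_tq c hxy s
  · exact (hn i).1.trans_le ((min_le_right _ _).trans (min_le_left _ _))
  · have := (g2 i).1
    have e1 : σ i (y + s) - Y' i = σ i s - (Y' i - σ i y) := by rw [map_add]; ring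
    rw [e1]
    linarith
  · have k1 := (g2 i).2
    have k2 := (hZ1 i).trans_le (min_le_left _ _)
    have := norm_sub_le_norm_sub_add_norm_sub (σ i z) (Z i) (W' i)
    linarith

theorem move_x [Nonempty ι] (hinj : Function.Injective p) (H : ∀ i, G4 (p i) c (h i) (ν i) (b i))
    {X Y W : ∀ i, ℚ_[p i]} (hC : Clo σ c X Y W) (hW : ∀ i, ‖W i‖ = 1) {X' W' : ∀ i, ℚ_[p i]}
    (h' : ∀ i, W' i ^ 2 = F4 c (X' i) (Y i)) (hW' : ∀ i, W' i ≠ 0) : Clo σ c X' Y W' := by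
  have := move_y hinj (fun i => (H i).swap) hC.swap hW (Y' := X') (W' := W')
    (fun i => by rw [F4_swap]; exact h' i) hW'
  exact this.swap

/-- all the points over a family of first coordinates are limits -/
def FX (σ : ∀ i, K →+* ℚ_[p i]) (c : Fin 5 → Fin 5 → ℤ) (X : ∀ i, ℤ_[p i]) : Prop :=
  ∀ Y W : ∀ i, ℚ_[p i], (∀ i, W i ^ 2 = F4 c (X i : ℚ_[p i]) (Y i)) → (∀ i, W i ≠ 0) →
    Clo σ c (fun i => (X i : ℚ_[p i])) Y W

/-- all the points over a family of second coordinates are limits -/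
def FY (σ : ∀ i, K →+* ℚ_[p i]) (c : Fin 5 → Fin 5 → ℤ) (Y : ∀ i, ℤ_[p i]) : Prop :=
  ∀ X W : ∀ i, ℚ_[p i], (∀ i, W i ^ 2 = F4 c (X i) (Y i : ℚ_[p i])) → (∀ i, W i ≠ 0) →
    Clo σ c X (fun i => (Y i : ℚ_[p i])) W

/-- two coordinates which are joined by a point with unit ordinate -/
def Jo (c : Fin 5 → Fin 5 → ℤ) (X Y : ∀ i, ℤ_[p i]) : Prop :=
  ∀ i, ∃ W : ℤ_[p i], W ^ 2 = F4 c (X i) (Y i) ∧ ‖W‖ = 1

lemma ne_of_one {q : ℕ} [Fact q.Prime] {W : ℤ_[q]} (h : ‖W‖ = 1) : (W : ℚ_[q]) ≠ 0 := by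
  intro h0
  rw [← coe_norm, h0, norm_zero] at h
  exact zero_ne_one h

lemma FX.toFY [Nonempty ι] (hinj : Function.Injective p) (H : ∀ i, G4 (p i) c (h i) (ν i) (b i))
    {X Y : ∀ i, ℤ_[p i]} (hX : FX σ c X) (hJ : Jo c X Y) : FY σ c Y := by
  choose W hW1 hW2 using hJ
  intro X' W' h1 h2
  refine move_x hinj H (W := fun i => (W i : ℚ_[p i])) (hX _ _ (fun i => ?_) fun i => ?_)
    (fun i => ?_) h1 h2
  · rw [← F4_coe, ← hW1]; push_cast; rfl
  · exact ne_of_one (hW2 i)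
  · rw [coe_norm]; exact hW2 i

lemma FY.toFX [Nonempty ι] (hinj : Function.Injective p) (H : ∀ i, G4 (p i) c (h i) (ν i) (b i))
    {X Y : ∀ i, ℤ_[p i]} (hY : FY σ c Y) (hJ : Jo c X Y) : FX σ c X := by
  choose W hW1 hW2 using hJ
  intro Y' W' h1 h2
  refine move_y hinj H (W := fun i => (W i : ℚ_[p i])) (hY _ _ (fun i => ?_) fun i => ?_)
    (fun i => ?_) h1 h2
  · rw [← F4_coe, ← hW1]; push_cast; rfl
  · exact ne_of_one (hW2 i)
  · rw [coe_norm]; exact hW2 i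

section hensel

variable {q : ℕ} [hq : Fact q.Prime]

lemma lift_red (k : ZMod q) : ∃ X : ℤ_[q], PadicInt.toZMod X = k := by
  refine ⟨(k.val : ℤ_[q]), ?_⟩
  rw [map_natCast, ZMod.natCast_zmod_val]

lemma unit_sq {a : ℤ_[q]} (h2 : (2 : ZMod q) ≠ 0) {t : ZMod q} (ht : t ≠ 0)
    (h : PadicInt.toZMod a = t ^ 2) : ∃ W : ℤ_[q], W ^ 2 = a ∧ ‖W‖ = 1 := by
  obtain ⟨T, hT⟩ := lift_red t
  have n1 : ‖T ^ 2 - a‖ < 1 := by
    rw [← red_zero, map_sub, map_pow, hT, h, sub_self]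
  have n2 : ‖2 * T‖ = 1 := by
    rw [← red_one, map_mul, map_ofNat, hT]
    exact mul_ne_zero h2 ht
  obtain ⟨z, hz, -⟩ := hensels_lemma (R := ℤ_[q]) (p := q)
    (F := (Polynomial.X ^ 2 - Polynomial.C a : Polynomial ℤ_[q])) (a := T) (by
      simp only [Polynomial.derivative_sub, Polynomial.derivative_X_pow, Polynomial.derivative_C,
        sub_zero, map_sub, map_pow, map_mul, Polynomial.aeval_X, Polynomial.aeval_C]
      simpa [n2] using n1)
  have hz' : z ^ 2 = a := by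
    have : z ^ 2 - a = 0 := by simpa using hz
    linear_combination this
  refine ⟨z, hz', ?_⟩
  rw [← red_one]
  intro h0
  apply ht
  have := congrArg PadicInt.toZMod hz'
  rw [map_pow, h0, h, zero_pow two_ne_zero] at this
  exact pow_eq_zero_iff two_ne_zero |>.1 this.symm

end hensel

end Pool.Agent.Y720.MZ
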